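import Pool.Agent.V1197.CW.Oper

/-! The Hardy space as the space of square-summable Taylor coefficients. -/

namespace Pool.Agent.V1197.CW
open Finset MeasureTheory Set
open scoped ComplexConjugate

/-- the integral mean of `|f|^2` over the circle of radius `r` -/
noncomputable def HardyMean (f : ℂ → ℂ) (r : ℝ) : ℝ :=
  1 / (2 * Real.pi) * ∫ θ in (0 : ℝ)..(2 * Real.pi), ‖f ((r : ℂ) * Complex.exp ((θ : ℂ) * Complex.I))‖ ^ 2

theorem exp_int2 (k : ℤ) :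
    ∫ θ in Ioo 0 (2 * Real.pi), Complex.exp ((k : ℂ) * ((θ : ℂ) * Complex.I)) = if k = 0 then ((2 * Real.pi : ℝ) : ℂ) else 0 := by
  have h2pi : (0 : ℝ) ≤ 2 * Real.pi := by positivity
  rw [← integral_Ioc_eq_integral_Ioo, ← intervalIntegral.integral_of_le h2pi]
  split_ifs with h
  · subst h
    simp
  · have hk0 : (k : ℂ) * Complex.I ≠ 0 := mul_ne_zero (by exact_mod_cast h) Complex.I_ne_zero
    have e : (fun θ : ℝ => Complex.exp ((k : ℂ) * ((θ : ℂ) * Complex.I))) =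
        fun θ : ℝ => Complex.exp (((k : ℂ) * Complex.I) * (θ : ℂ)) := by
      funext θ; congr 1; ring
    rw [e, integral_exp_mul_complex hk0]
    have h1 : Complex.exp ((k : ℂ) * Complex.I * ((2 * Real.pi : ℝ) : ℂ)) = 1 := by
      rw [Complex.exp_eq_one_iff]
      exact ⟨k, by push_cast; ring⟩
    have h2 : Complex.exp ((k : ℂ) * Complex.I * ((0 : ℝ) : ℂ)) = 1 := by
      rw [Complex.ofReal_zero, mul_zero, Complex.exp_zero]
    rw [h1, h2, sub_self, zero_div]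

theorem term_eq2 (c : ℕ → ℂ) (ρ θ : ℝ) (j k : ℕ) :
    (c j * ((ρ : ℂ) * Complex.exp ((θ : ℂ) * Complex.I)) ^ j) * conj (c k * ((ρ : ℂ) * Complex.exp ((θ : ℂ) * Complex.I)) ^ k) =
      (c j * conj (c k) * (ρ : ℂ) ^ (j + k)) * Complex.exp ((((j : ℤ) - (k : ℤ) : ℤ) : ℂ) * ((θ : ℂ) * Complex.I)) := by
  have h1 : ((ρ : ℂ) * Complex.exp ((θ : ℂ) * Complex.I)) ^ j = (ρ : ℂ) ^ j * Complex.exp ((j : ℂ) * ((θ : ℂ) * Complex.I)) := by
    rw [mul_pow, ← Complex.exp_nat_mul]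
  have h2 : conj (((ρ : ℂ) * Complex.exp ((θ : ℂ) * Complex.I)) ^ k) = (ρ : ℂ) ^ k * Complex.exp (-((k : ℂ) * ((θ : ℂ) * Complex.I))) := by
    rw [mul_pow, ← Complex.exp_nat_mul, map_mul, map_pow, Complex.conj_ofReal, ← Complex.exp_conj]
    congr 2
    rw [map_mul, map_mul, Complex.conj_ofReal, Complex.conj_I, map_natCast]
    ring
  rw [map_mul, h1, h2]
  have h3 : Complex.exp ((((j : ℤ) - (k : ℤ) : ℤ) : ℂ) * ((θ : ℂ) * Complex.I)) =
      Complex.exp ((j : ℂ) * ((θ : ℂ) * Complex.I)) * Complex.exp (-((k : ℂ) * ((θ : ℂ) * Complex.I))) := by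
    rw [← Complex.exp_add]
    congr 1
    push_cast
    ring
  rw [h3, pow_add]
  ring

theorem circ_norm (ρ θ : ℝ) (h0 : 0 ≤ ρ) : ‖(ρ : ℂ) * Complex.exp ((θ : ℂ) * Complex.I)‖ = ρ := by
  rw [norm_mul, Complex.norm_exp_ofReal_mul_I, mul_one, Complex.norm_real, Real.norm_of_nonneg h0]

theorem parseval (c : ℕ → ℂ) (f : ℂ → ℂ) (hc : ∀ z : ℂ, ‖z‖ < 1 → Summable fun n => ‖c n * z ^ n‖)
    (hf : ∀ z : ℂ, ‖z‖ < 1 → HasSum (fun n => c n * z ^ n) (f z)) (ρ : ℝ) (h0 : 0 ≤ ρ) (h1 : ρ < 1) :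
    HasSum (fun n => ‖c n‖ ^ 2 * ρ ^ (n + n)) (HardyMean f ρ) := by
  have hz : ∀ θ : ℝ, ‖(ρ : ℂ) * Complex.exp ((θ : ℂ) * Complex.I)‖ < 1 := fun θ => by rw [circ_norm ρ θ h0]; exact h1
  have hzρ : ‖(ρ : ℂ)‖ < 1 := by rw [Complex.norm_real, Real.norm_of_nonneg h0]; exact h1
  have sn := hc (ρ : ℂ) hzρ
  have key : HasSum (fun x : ℕ × ℕ => ∫ θ in Ioo 0 (2 * Real.pi), (c x.1 * ((ρ : ℂ) * Complex.exp ((θ : ℂ) * Complex.I)) ^ x.1) * conj (c x.2 * ((ρ : ℂ) * Complex.exp ((θ : ℂ) * Complex.I)) ^ x.2))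
      (∫ θ in Ioo 0 (2 * Real.pi), f ((ρ : ℂ) * Complex.exp ((θ : ℂ) * Complex.I)) * conj (f ((ρ : ℂ) * Complex.exp ((θ : ℂ) * Complex.I)))) := by
    refine hasSum_integral_of_dominated_convergence
      (fun x _ => ‖c x.1 * (ρ : ℂ) ^ x.1‖ * ‖c x.2 * (ρ : ℂ) ^ x.2‖) ?_ ?_ ?_ ?_ ?_
    · intro x
      refine Continuous.aestronglyMeasurable ?_
      fun_prop
    · intro x
      refine Filter.Eventually.of_forall fun θ => ?_
      rw [norm_mul, RCLike.norm_conj, norm_mul, norm_mul, norm_mul, norm_mul, norm_pow, norm_pow, norm_pow, norm_pow,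
        circ_norm ρ θ h0, Complex.norm_real, Real.norm_of_nonneg h0]
    · exact Filter.Eventually.of_forall fun θ =>
        Summable.mul_of_nonneg sn sn (fun _ => norm_nonneg _) (fun _ => norm_nonneg _)
    · exact integrable_const _
    · refine Filter.Eventually.of_forall fun θ => ?_
      have s1 := hc _ (hz θ)
      have H1 := hf _ (hz θ)
      have H2' : HasSum (fun k => conj (c k * ((ρ : ℂ) * Complex.exp ((θ : ℂ) * Complex.I)) ^ k)) (conj (f ((ρ : ℂ) * Complex.exp ((θ : ℂ) * Complex.I)))) :=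
        Complex.conjCLE.toContinuousLinearMap.hasSum H1
      have s2' : Summable fun k => ‖conj (c k * ((ρ : ℂ) * Complex.exp ((θ : ℂ) * Complex.I)) ^ k)‖ := by
        refine s1.congr fun k => ?_
        rw [RCLike.norm_conj]
      have s3 : Summable fun x : ℕ × ℕ => (c x.1 * ((ρ : ℂ) * Complex.exp ((θ : ℂ) * Complex.I)) ^ x.1) * conj (c x.2 * ((ρ : ℂ) * Complex.exp ((θ : ℂ) * Complex.I)) ^ x.2) :=
        summable_mul_of_summable_norm (f := fun j => c j * ((ρ : ℂ) * Complex.exp ((θ : ℂ) * Complex.I)) ^ j)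
          (g := fun k => conj (c k * ((ρ : ℂ) * Complex.exp ((θ : ℂ) * Complex.I)) ^ k)) s1 s2'
      exact HasSum.mul (f := fun j => c j * ((ρ : ℂ) * Complex.exp ((θ : ℂ) * Complex.I)) ^ j) (g := fun k => conj (c k * ((ρ : ℂ) * Complex.exp ((θ : ℂ) * Complex.I)) ^ k)) H1 H2' s3
  have e : (fun x : ℕ × ℕ => ∫ θ in Ioo 0 (2 * Real.pi), (c x.1 * ((ρ : ℂ) * Complex.exp ((θ : ℂ) * Complex.I)) ^ x.1) * conj (c x.2 * ((ρ : ℂ) * Complex.exp ((θ : ℂ) * Complex.I)) ^ x.2)) =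
      fun x : ℕ × ℕ => if x.1 = x.2 then ((2 * Real.pi : ℝ) : ℂ) * (c x.1 * conj (c x.2) * (ρ : ℂ) ^ (x.1 + x.2)) else 0 := by
    funext x
    obtain ⟨j, k⟩ := x
    simp only [term_eq2]
    rw [integral_const_mul, exp_int2]
    by_cases hjk : j = k
    · rw [if_pos (by omega), if_pos hjk]
      ring
    · rw [if_neg (by omega), if_neg hjk]
      ring
  rw [e] at key
  have hinj : Function.Injective (fun j : ℕ => (j, j)) := fun x y h => (Prod.mk.inj h).1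
  have h3 := (hinj.hasSum_iff (f := fun x : ℕ × ℕ => if x.1 = x.2 then ((2 * Real.pi : ℝ) : ℂ) * (c x.1 * conj (c x.2) * (ρ : ℂ) ^ (x.1 + x.2)) else 0)
    (by
      rintro ⟨j, k⟩ hx
      refine if_neg ?_
      intro hjk
      exact hx ⟨j, by simp only at hjk; rw [hjk]⟩)).2 key
  have e2 : ((fun x : ℕ × ℕ => if x.1 = x.2 then ((2 * Real.pi : ℝ) : ℂ) * (c x.1 * conj (c x.2) * (ρ : ℂ) ^ (x.1 + x.2)) else 0) ∘ fun j : ℕ => (j, j)) =
      fun j : ℕ => (((2 * Real.pi) * (‖c j‖ ^ 2 * ρ ^ (j + j)) : ℝ) : ℂ) := by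
    funext j
    simp only [Function.comp_apply, if_true]
    rw [Complex.mul_conj, Complex.normSq_eq_norm_sq]
    push_cast
    ring
  rw [e2] at h3
  have e3 : (∫ θ in Ioo 0 (2 * Real.pi), f ((ρ : ℂ) * Complex.exp ((θ : ℂ) * Complex.I)) * conj (f ((ρ : ℂ) * Complex.exp ((θ : ℂ) * Complex.I)))) =
      (((2 * Real.pi) * HardyMean f ρ : ℝ) : ℂ) := by
    have h2pi : (0 : ℝ) ≤ 2 * Real.pi := by positivity
    have e4 : ∀ θ : ℝ, f ((ρ : ℂ) * Complex.exp ((θ : ℂ) * Complex.I)) * conj (f ((ρ : ℂ) * Complex.exp ((θ : ℂ) * Complex.I))) =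
        ((‖f ((ρ : ℂ) * Complex.exp ((θ : ℂ) * Complex.I))‖ ^ 2 : ℝ) : ℂ) := by
      intro θ
      rw [Complex.mul_conj, Complex.normSq_eq_norm_sq]
    simp only [e4]
    rw [integral_complex_ofReal, HardyMean, intervalIntegral.integral_of_le h2pi, integral_Ioc_eq_integral_Ioo]
    have hpi2 : 2 * Real.pi ≠ 0 := by positivity
    rw [← mul_assoc, mul_one_div_cancel hpi2, one_mul]
  rw [e3] at h3
  have h4 := Complex.hasSum_ofReal.1 h3
  have h5 := h4.mul_left (1 / (2 * Real.pi))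
  have hpi := Real.pi_pos.ne'
  have e5 : (fun n => 1 / (2 * Real.pi) * (2 * Real.pi * (‖c n‖ ^ 2 * ρ ^ (n + n)))) = fun n => ‖c n‖ ^ 2 * ρ ^ (n + n) := by
    funext n
    field_simp
  have e6 : 1 / (2 * Real.pi) * (2 * Real.pi * HardyMean f ρ) = HardyMean f ρ := by
    field_simp
  rw [e5, e6] at h5
  exact h5

theorem partial_le (c : ℕ → ℂ) (f : ℂ → ℂ) (hc : ∀ z : ℂ, ‖z‖ < 1 → Summable fun n => ‖c n * z ^ n‖)
    (hf : ∀ z : ℂ, ‖z‖ < 1 → HasSum (fun n => c n * z ^ n) (f z)) (M : ℝ)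
    (hM : ∀ ρ : ℝ, 0 < ρ → ρ < 1 → HardyMean f ρ ≤ M) (s : Finset ℕ) : ∑ n ∈ s, ‖c n‖ ^ 2 ≤ M := by
  have h1 : ∀ ρ : ℝ, 0 < ρ → ρ < 1 → ∑ n ∈ s, ‖c n‖ ^ 2 * ρ ^ (n + n) ≤ M := by
    intro ρ h0 hρ
    refine (sum_le_hasSum s (fun n _ => ?_) (parseval c f hc hf ρ h0.le hρ)).trans (hM ρ h0 hρ)
    positivity
  have h3 : Filter.Tendsto (fun ρ : ℝ => ∑ n ∈ s, ‖c n‖ ^ 2 * ρ ^ (n + n)) (nhdsWithin 1 (Iio 1))
      (nhds (∑ n ∈ s, ‖c n‖ ^ 2 * (1 : ℝ) ^ (n + n))) := by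
    have hcc : Continuous (fun ρ : ℝ => ∑ n ∈ s, ‖c n‖ ^ 2 * ρ ^ (n + n)) := by fun_prop
    exact (hcc.tendsto 1).mono_left nhdsWithin_le_nhds
  have h5 := le_of_tendsto h3 (b := M) (by
    have e1 : ∀ᶠ ρ in nhdsWithin (1 : ℝ) (Iio 1), ρ < 1 := eventually_nhdsWithin_of_forall fun x hx => hx
    have e2 : ∀ᶠ ρ in nhdsWithin (1 : ℝ) (Iio 1), 0 < ρ :=
      (eventually_gt_nhds (by norm_num : (0 : ℝ) < 1)).filter_mono nhdsWithin_le_nhds
    filter_upwards [e1, e2] with ρ x y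
    exact h1 ρ y x)
  simpa using h5

theorem coeff_le (x : H2) (n : ℕ) : ‖x n‖ ≤ ‖x‖ := lp.norm_apply_le_norm (by norm_num) x n

theorem H2_summable (x : H2) (z : ℂ) (hz : ‖z‖ < 1) : Summable fun n => ‖x n * z ^ n‖ := by
  refine Summable.of_nonneg_of_le (fun _ => norm_nonneg _) (fun n => ?_)
    ((summable_geometric_of_lt_one (norm_nonneg z) hz).mul_left ‖x‖)
  rw [norm_mul, norm_pow]
  exact mul_le_mul_of_nonneg_right (coeff_le x n) (by positivity)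

theorem H2_hasSum (x : H2) (z : ℂ) (hz : ‖z‖ < 1) : HasSum (fun n => x n * z ^ n) (ev x z) :=
  (H2_summable x z hz).of_norm.hasSum

theorem H2_norm_sq (x : H2) : HasSum (fun n => ‖x n‖ ^ 2) (‖x‖ ^ 2) := by
  have := lp.hasSum_norm (p := 2) (by norm_num) x
  simpa using this

theorem ev_diff (x : H2) : DifferentiableOn ℂ (ev x) (Metric.ball 0 1) := by
  intro z hz
  rw [mem_ball_zero_iff] at hz
  obtain ⟨r, hr1, hr2⟩ := exists_between hz
  have hr0 : 0 ≤ r := (norm_nonneg z).trans hr1.le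
  have h := Complex.differentiableOn_tsum_of_summable_norm (F := fun n (w : ℂ) => x n * w ^ n)
    (u := fun n => ‖x‖ * r ^ n) (U := Metric.ball 0 r)
    ((summable_geometric_of_lt_one hr0 hr2).mul_left ‖x‖) (fun n => by fun_prop) Metric.isOpen_ball
    (fun n w hw => by
      rw [mem_ball_zero_iff] at hw
      rw [norm_mul, norm_pow]
      exact mul_le_mul (coeff_le x n) (pow_le_pow_left₀ (norm_nonneg _) hw.le n) (by positivity) (norm_nonneg _))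
  exact (h.differentiableAt (Metric.isOpen_ball.mem_nhds (mem_ball_zero_iff.2 hr1))).differentiableWithinAt

theorem ev_lub (x : H2) : IsLUB (HardyMean (ev x) '' Ioo 0 1) (‖x‖ ^ 2) := by
  constructor
  · rintro _ ⟨ρ, hρ, rfl⟩
    have h1 := parseval (fun n => x n) (ev x) (H2_summable x) (H2_hasSum x) ρ hρ.1.le hρ.2
    refine hasSum_le (fun n => ?_) h1 (H2_norm_sq x)
    exact mul_le_of_le_one_right (by positivity) (pow_le_one₀ hρ.1.le hρ.2.le)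
  · intro M hM
    have h := partial_le (fun n => x n) (ev x) (H2_summable x) (H2_hasSum x) M
      (fun ρ h0 h1 => hM ⟨ρ, ⟨h0, h1⟩, rfl⟩)
    exact hasSum_le_of_sum_le (H2_norm_sq x) h

theorem ev_surj (f : ℂ → ℂ) (hf : DifferentiableOn ℂ f (Metric.ball 0 1))
    (hb : BddAbove (HardyMean f '' Ioo 0 1)) : ∃ x : H2, ∀ z ∈ Metric.ball (0 : ℂ) 1, f z = ev x z := by
  obtain ⟨M, hM⟩ := hb
  set c : ℕ → ℂ := fun n => ((n.factorial : ℂ)⁻¹) * iteratedDeriv n f 0 with hcdef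
  have hs : ∀ z : ℂ, ‖z‖ < 1 → HasSum (fun n => c n * z ^ n) (f z) := by
    intro z hz
    have h := Complex.hasSum_taylorSeries_on_ball hf (mem_ball_zero_iff.2 hz)
    have e : (fun n : ℕ => c n * z ^ n) = fun n : ℕ => ((n.factorial : ℂ)⁻¹) • (z - 0) ^ n • iteratedDeriv n f 0 := by
      funext n
      rw [hcdef, sub_zero, smul_eq_mul, smul_eq_mul]
      ring
    rw [e]
    exact h
  have hc : ∀ z : ℂ, ‖z‖ < 1 → Summable fun n => ‖c n * z ^ n‖ := fun z hz => (hs z hz).summable.norm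
  have hle := partial_le c f hc hs M (fun ρ h0 h1 => hM ⟨ρ, ⟨h0, h1⟩, rfl⟩)
  have hmem : Memℓp c 2 := by
    refine memℓp_gen' (C := M) fun s => ?_
    simpa using hle s
  refine ⟨⟨c, hmem⟩, fun z hz => ?_⟩
  rw [mem_ball_zero_iff] at hz
  exact (hs z hz).tsum_eq.symm

end Pool.Agent.V1197.CW
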