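import Mathlib

/-! Algebra: coefficients of powers of `log ((1+z)/(1-z))`, Mittag-Leffler polynomials and a random walk. -/

namespace Pool.Agent.V1197.CW
open PowerSeries Finset

noncomputable def ell : PowerSeries ℝ := PowerSeries.mk (fun n => if n % 2 = 1 then 2 / (n : ℝ) else 0)

noncomputable def al (n m : ℕ) : ℝ := coeff n (ell ^ m)

theorem ell_ode : (1 - (X : PowerSeries ℝ) ^ 2) * (d⁄dX ℝ ell) = 2 := by
  ext n
  have hc : ∀ n, coeff n (d⁄dX ℝ ell) = if n % 2 = 0 then (2 : ℝ) else 0 := by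
    intro n
    rw [PowerSeries.coeff_derivative, ell, PowerSeries.coeff_mk]
    by_cases h : n % 2 = 0
    · have h' : (n + 1) % 2 = 1 := by omega
      have hn : ((n : ℝ) + 1) ≠ 0 := by positivity
      rw [if_pos h, if_pos h']
      push_cast
      field_simp
    · have h' : ¬ (n + 1) % 2 = 1 := by omega
      rw [if_neg h, if_neg h', zero_mul]
  have h2 : coeff n (2 : PowerSeries ℝ) = if n = 0 then 2 else 0 := by
    have : (2 : PowerSeries ℝ) = C (2 : ℝ) := (map_ofNat (C : ℝ →+* PowerSeries ℝ) 2).symm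
    rw [this, PowerSeries.coeff_C]
  rw [h2, sub_mul, one_mul, map_sub, hc]
  rcases n with _ | _ | n
  · rw [PowerSeries.coeff_X_pow_mul', if_neg (show ¬ 2 ≤ 0 by omega)]
    norm_num
  · rw [PowerSeries.coeff_X_pow_mul', if_neg (show ¬ 2 ≤ 0 + 1 by omega)]
    norm_num
  · rw [PowerSeries.coeff_X_pow_mul', if_pos (show 2 ≤ n + 1 + 1 by omega), hc]
    have : (n + 1 + 1 - 2) % 2 = (n + 1 + 1) % 2 := by omega
    rw [this, sub_self, if_neg (show ¬ n + 1 + 1 = 0 by omega)]

theorem al_zero_right (n : ℕ) : al n 0 = if n = 0 then 1 else 0 := by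
  rw [al, pow_zero, PowerSeries.coeff_one]

theorem ode_pow (m : ℕ) : (1 - (X : PowerSeries ℝ) ^ 2) * (d⁄dX ℝ (ell ^ (m + 1))) =
    (2 * (m + 1 : ℝ)) • ell ^ m := by
  have h := Derivation.leibniz_pow (d⁄dX ℝ) ell (m + 1)
  rw [h]
  simp only [Nat.add_sub_cancel]
  rw [smul_eq_mul, nsmul_eq_mul]
  calc (1 - (X : PowerSeries ℝ) ^ 2) * (((m + 1 : ℕ) : PowerSeries ℝ) * (ell ^ m * (d⁄dX ℝ) ell))
      = ((m + 1 : ℕ) : PowerSeries ℝ) * ell ^ m * ((1 - (X : PowerSeries ℝ) ^ 2) * (d⁄dX ℝ) ell) := by ring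
    _ = (2 * (m + 1 : ℝ)) • ell ^ m := by
        rw [ell_ode, PowerSeries.smul_eq_C_mul]
        simp only [map_mul, map_add, map_natCast, map_one, map_ofNat]
        push_cast
        ring

theorem al_rec1 (m : ℕ) : al 1 (m + 1) = 2 * (m + 1) * al 0 m := by
  have h := congrArg (coeff 0) (ode_pow m)
  rw [sub_mul, one_mul, map_sub, PowerSeries.coeff_derivative, PowerSeries.coeff_X_pow_mul'] at h
  simp only [map_smul, smul_eq_mul] at h
  rw [if_neg (by norm_num)] at h
  simp only [al]
  simp at h ⊢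
  linarith

theorem al_rec (n m : ℕ) : ((n : ℝ) + 2) * al (n + 2) (m + 1) =
    n * al n (m + 1) + 2 * (m + 1) * al (n + 1) m := by
  have h := congrArg (coeff (n + 1)) (ode_pow m)
  rw [sub_mul, one_mul, map_sub, PowerSeries.coeff_derivative, PowerSeries.coeff_X_pow_mul'] at h
  simp only [map_smul, smul_eq_mul] at h
  simp only [al]
  rcases n with _ | n
  · rw [if_neg (by norm_num)] at h
    push_cast at h ⊢
    linarith
  · rw [if_pos (by omega), PowerSeries.coeff_derivative] at h
    have e : n + 1 + 1 - 2 + 1 = n + 1 := by omega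
    have e2 : ((n + 1 + 1 - 2 : ℕ) : ℝ) = n := by
      have : n + 1 + 1 - 2 = n := by omega
      rw [this]
    rw [e, e2] at h
    push_cast at h ⊢
    linarith

theorem al_zero_left (m : ℕ) : al 0 (m + 1) = 0 := by
  rw [al, PowerSeries.coeff_zero_eq_constantCoeff, map_pow]
  have : PowerSeries.constantCoeff ell = 0 := by
    rw [← PowerSeries.coeff_zero_eq_constantCoeff_apply, ell, PowerSeries.coeff_mk]
    simp
  rw [this]
  simp

theorem al_lt (m : ℕ) : ∀ n, n < m → al n m = 0 := by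
  induction m with
  | zero => intro n hn; omega
  | succ m ihm =>
    intro n
    induction n using Nat.strong_induction_on with
    | _ n ih =>
      intro hn
      rcases n with _ | _ | n
      · exact al_zero_left m
      · rw [zero_add, al_rec1]
        rcases m with _ | m
        · omega
        · rw [al_zero_left]; ring
      · have h := al_rec n m
        rw [ih n (by omega) (by omega), ihm (n + 1) (by omega)] at h
        have hn2 : ((n : ℝ) + 2) ≠ 0 := by positivity
        have : ((n : ℝ) + 2) * al (n + 2) (m + 1) = 0 := by rw [h]; ring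
        exact (mul_eq_zero.1 this).resolve_left hn2

theorem al_parity (m : ℕ) : ∀ n, (n + m) % 2 = 1 → al n m = 0 := by
  induction m with
  | zero =>
    intro n hn
    rw [al_zero_right, if_neg (by omega)]
  | succ m ihm =>
    intro n
    induction n using Nat.strong_induction_on with
    | _ n ih =>
      intro hn
      rcases n with _ | _ | n
      · exact al_zero_left m
      · rw [zero_add, al_rec1, ihm 0 (by omega)]; ring
      · have h := al_rec n m
        rw [ih n (by omega) (by omega), ihm (n + 1) (by omega)] at h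
        have hn2 : ((n : ℝ) + 2) ≠ 0 := by positivity
        have : ((n : ℝ) + 2) * al (n + 2) (m + 1) = 0 := by rw [h]; ring
        exact (mul_eq_zero.1 this).resolve_left hn2

/-- Mittag-Leffler polynomials -/
noncomputable def g (n : ℕ) (x : ℂ) : ℂ := ∑ m ∈ range (n + 1), (al n m : ℂ) * (x ^ m / (m.factorial : ℂ))

theorem g_ext (n N : ℕ) (h : n < N) (x : ℂ) :
    g n x = ∑ m ∈ range N, (al n m : ℂ) * (x ^ m / (m.factorial : ℂ)) := by
  rw [g]
  refine Finset.sum_subset (by intro a; simp only [mem_range]; omega) ?_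
  intro m _ hm
  rw [al_lt m n (by simpa using hm)]
  simp

theorem g_rec (n : ℕ) (x : ℂ) : ((n : ℂ) + 2) * g (n + 2) x = 2 * x * g (n + 1) x + n * g n x := by
  rw [g_ext (n + 2) (n + 4) (by omega), g_ext (n + 1) (n + 3) (by omega), g_ext n (n + 4) (by omega),
    Finset.sum_range_succ' _ (n + 3), Finset.sum_range_succ' _ (n + 3), al_zero_right, al_zero_right,
    if_neg (by omega)]
  have hz : (n : ℂ) * (((if n = 0 then 1 else 0 : ℝ) : ℂ) * (x ^ 0 / ((Nat.factorial 0 : ℕ) : ℂ))) = 0 := by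
    rcases n with _ | n
    · simp
    · simp
  rw [mul_add, mul_add, hz]
  simp only [Complex.ofReal_zero, zero_mul, mul_zero, add_zero]
  rw [Finset.mul_sum, Finset.mul_sum, Finset.mul_sum, ← Finset.sum_add_distrib]
  refine Finset.sum_congr rfl fun m _ => ?_
  have h : (((n : ℝ) + 2 : ℝ) : ℂ) * ((al (n + 2) (m + 1) : ℝ) : ℂ) =
      (((n : ℝ) : ℝ) : ℂ) * ((al n (m + 1) : ℝ) : ℂ) + ((2 * ((m : ℝ) + 1) : ℝ) : ℂ) * ((al (n + 1) m : ℝ) : ℂ) := by
    rw [← Complex.ofReal_mul, al_rec n m]
    push_cast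
    ring
  push_cast at h
  have hf : ((m + 1).factorial : ℂ) = ((m : ℂ) + 1) * (m.factorial : ℂ) := by
    rw [Nat.factorial_succ]; push_cast; ring
  have hf0 : (m.factorial : ℂ) ≠ 0 := by exact_mod_cast Nat.factorial_ne_zero m
  have hm0 : ((m : ℂ) + 1) ≠ 0 := by exact_mod_cast Nat.succ_ne_zero m
  calc ((n : ℂ) + 2) * ((al (n + 2) (m + 1) : ℂ) * (x ^ (m + 1) / ((m + 1).factorial : ℂ)))
      = (((n : ℂ) + 2) * (al (n + 2) (m + 1) : ℂ)) * (x ^ (m + 1) / ((m + 1).factorial : ℂ)) := by ring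
    _ = _ := by
      rw [h, hf, pow_succ]
      field_simp
      ring

theorem g_zero (x : ℂ) : g 0 x = 1 := by
  rw [g]
  simp [al_zero_right]

theorem g_one (x : ℂ) : g 1 x = 2 * x := by
  rw [g]
  simp only [Finset.sum_range_succ, Finset.sum_range_zero]
  rw [al_zero_right, show al 1 1 = 2 * ((0 : ℕ) + 1) * al 0 0 from by
    have := al_rec1 0
    simpa using this, al_zero_right]
  simp

theorem g_SR (n : ℕ) (x : ℂ) : (g (n + 1) (x + 1) - g n (x + 1) = g (n + 1) x + g n x) ∧
    (x * g (n + 1) (x + 1) = (x + n + 1) * g (n + 1) x + n * g n x) := by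
  induction n with
  | zero =>
    rw [zero_add, g_one, g_zero, g_one, g_zero]
    constructor
    · ring
    · push_cast; ring
  | succ n ih =>
    obtain ⟨hS, hR⟩ := ih
    have h1 := g_rec n x
    have h2 := g_rec n (x + 1)
    have hn : ((n : ℂ) + 2) ≠ 0 := by
      have : ((n + 2 : ℕ) : ℂ) ≠ 0 := Nat.cast_ne_zero.2 (by omega)
      push_cast at this
      exact this
    have hS' : g (n + 1 + 1) (x + 1) - g (n + 1) (x + 1) = g (n + 1 + 1) x + g (n + 1) x := by
      have : ((n : ℂ) + 2) * (g (n + 1 + 1) (x + 1) - g (n + 1) (x + 1) - (g (n + 1 + 1) x + g (n + 1) x)) = 0 := by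
        have h1' : ((n : ℂ) + 2) * g (n + 1 + 1) x = 2 * x * g (n + 1) x + n * g n x := h1
        have h2' : ((n : ℂ) + 2) * g (n + 1 + 1) (x + 1) = 2 * (x + 1) * g (n + 1) (x + 1) + n * g n (x + 1) := h2
        linear_combination h2' - h1' - (n : ℂ) * hS + 2 * hR
      have h3 := (mul_eq_zero.1 this).resolve_left hn
      exact sub_eq_zero.1 h3
    refine ⟨hS', ?_⟩
    have h1' : ((n : ℂ) + 2) * g (n + 1 + 1) x = 2 * x * g (n + 1) x + n * g n x := h1
    push_cast
    linear_combination x * hS' + hR - h1'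

theorem g_neg (n : ℕ) (x : ℂ) : g n (-x) = (-1) ^ n * g n x := by
  rw [g, g, Finset.mul_sum]
  refine Finset.sum_congr rfl fun m _ => ?_
  rcases Nat.even_or_odd (n + m) with h | h
  · have : (-1 : ℂ) ^ m = (-1) ^ n := by
      rcases Nat.even_or_odd m with h1 | h1
      · have h2 : Even n := by
          have := h1
          rcases Nat.even_or_odd n with h3 | h3
          · exact h3
          · exact absurd h (Nat.not_even_iff_odd.2 (h3.add_even h1))
        rw [h1.neg_one_pow, h2.neg_one_pow]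
      · have h2 : Odd n := by
          rcases Nat.even_or_odd n with h3 | h3
          · exact absurd h (Nat.not_even_iff_odd.2 (h3.add_odd h1))
          · exact h3
        rw [h1.neg_one_pow, h2.neg_one_pow]
    rw [neg_pow, this]
    ring
  · rw [al_parity m n (Nat.odd_iff.1 h)]
    simp

theorem g_conj (n : ℕ) (x : ℂ) : (starRingEnd ℂ) (g n x) = g n ((starRingEnd ℂ) x) := by
  rw [g, g, map_sum]
  refine Finset.sum_congr rfl fun m _ => ?_
  rw [map_mul, map_div₀, map_pow, Complex.conj_ofReal, map_natCast]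

/-- random walk on the integers started from the antisymmetric measure -/
noncomputable def w : ℕ → ℤ → ℝ
  | 0, k => if k = 1 then 1 / 2 else if k = -1 then -(1 / 2) else 0
  | n + 1, k => (w n (k - 1) + w n (k + 1)) / 2

theorem w_zero (k : ℤ) : w 0 k = if k = 1 then 1 / 2 else if k = -1 then -(1 / 2) else 0 := rfl

theorem w_succ (n : ℕ) (k : ℤ) : w (n + 1) k = (w n (k - 1) + w n (k + 1)) / 2 := rfl

theorem w_neg (n : ℕ) : ∀ k, w n (-k) = - w n k := by
  induction n with
  | zero =>
    intro k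
    rw [w_zero, w_zero]
    by_cases h1 : k = 1
    · subst h1; norm_num
    · by_cases h2 : k = -1
      · subst h2; norm_num
      · rw [if_neg (by omega), if_neg (by omega), if_neg h1, if_neg h2, neg_zero]
  | succ n ih =>
    intro k
    rw [w_succ, w_succ, show -k - 1 = -(k + 1) by ring, show -k + 1 = -(k - 1) by ring, ih, ih]
    ring

theorem w_zero_right (n : ℕ) : w n 0 = 0 := by
  have := w_neg n 0
  rw [neg_zero] at this
  linarith

theorem w_supp (n : ℕ) : ∀ k : ℤ, (n : ℤ) + 1 < k → w n k = 0 := by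
  induction n with
  | zero =>
    intro k hk
    push_cast at hk
    rw [w_zero, if_neg (by omega), if_neg (by omega)]
  | succ n ih =>
    intro k hk
    push_cast at hk
    rw [w_succ, ih (k - 1) (by omega), ih (k + 1) (by omega)]
    norm_num

theorem w_parity (n : ℕ) : ∀ k : ℤ, ((n : ℤ) + k) % 2 = 0 → w n k = 0 := by
  induction n with
  | zero =>
    intro k hk
    push_cast at hk
    rw [w_zero, if_neg (by omega), if_neg (by omega)]
  | succ n ih =>
    intro k hk
    push_cast at hk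
    rw [w_succ, ih (k - 1) (by omega), ih (k + 1) (by omega)]
    norm_num

theorem w_base (k : ℤ) : 2 * w 1 k = ((k : ℝ) / 2) * (w 0 (k - 1) - w 0 (k + 1)) := by
  have h : w 1 k = (w 0 (k - 1) + w 0 (k + 1)) / 2 := rfl
  rw [h]
  by_cases h1 : k = 2
  · subst h1; norm_num [w_zero]
  · by_cases h2 : k = 0
    · subst h2; norm_num [w_zero]
    · by_cases h3 : k = -2
      · subst h3; norm_num [w_zero]
      · have e1 : w 0 (k - 1) = 0 := by
          rw [w_zero, if_neg (by omega), if_neg (by omega)]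
        have e2 : w 0 (k + 1) = 0 := by
          rw [w_zero, if_neg (by omega), if_neg (by omega)]
        rw [e1, e2]
        ring

theorem w_E (n : ℕ) : ∀ k : ℤ, ((n : ℝ) + 3) * w (n + 2) k - (n + 1) * w n k =
    ((k : ℝ) / 2) * (w (n + 1) (k - 1) - w (n + 1) (k + 1)) := by
  induction n with
  | zero =>
    intro k
    have a1 := w_base (k - 1)
    have a2 := w_base (k + 1)
    have e1 : w 2 k = (w 1 (k - 1) + w 1 (k + 1)) / 2 := rfl
    have e2 : w 1 (k - 1) = (w 0 (k - 1 - 1) + w 0 (k - 1 + 1)) / 2 := rfl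
    have e3 : w 1 (k + 1) = (w 0 (k + 1 - 1) + w 0 (k + 1 + 1)) / 2 := rfl
    rw [show k - 1 + 1 = k by ring] at a1 e2
    rw [show k + 1 - 1 = k by ring] at a2 e3
    push_cast at a1 a2 ⊢
    simp only [zero_add]
    rw [e1]
    linear_combination (1 / 2) * a1 + (1 / 2) * a2 + (1 / 2 - (k : ℝ) / 2) * e2 + (1 / 2 + (k : ℝ) / 2) * e3
  | succ n ih =>
    intro k
    have a1 := ih (k - 1)
    have a2 := ih (k + 1)
    have e1 : w (n + 1 + 2) k = (w (n + 2) (k - 1) + w (n + 2) (k + 1)) / 2 := rfl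
    have e2 : w (n + 2) (k - 1) = (w (n + 1) (k - 1 - 1) + w (n + 1) (k - 1 + 1)) / 2 := rfl
    have e3 : w (n + 2) (k + 1) = (w (n + 1) (k + 1 - 1) + w (n + 1) (k + 1 + 1)) / 2 := rfl
    have e4 : w (n + 1) k = (w n (k - 1) + w n (k + 1)) / 2 := rfl
    rw [show k - 1 + 1 = k by ring] at a1 e2
    rw [show k + 1 - 1 = k by ring] at a2 e3
    push_cast at a1 a2 ⊢
    rw [show n + 1 + 1 = n + 2 by ring]
    rw [e1]
    linear_combination (1 / 2) * a1 + (1 / 2) * a2 + (1 / 2 - (k : ℝ) / 2) * e2 + (1 / 2 + (k : ℝ) / 2) * e3 - ((n : ℝ) + 1) * e4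

/-- the transition matrix entries -/
noncomputable def t (j k : ℕ) : ℝ := w (2 * j) (2 * (k : ℤ) + 1)

theorem t_zero (k : ℕ) : t 0 k = if k = 0 then 1 / 2 else 0 := by
  rw [t, w_zero]
  by_cases h : k = 0
  · subst h; norm_num
  · rw [if_neg (by omega), if_neg (by omega), if_neg h]

theorem t_succ_zero (j : ℕ) : t (j + 1) 0 = (t j 0 + t j 1) / 4 := by
  simp only [t]
  have e : w (2 * (j + 1)) (2 * ((0 : ℕ) : ℤ) + 1) =
      ((w (2 * j) (-1) + w (2 * j) 1) / 2 + (w (2 * j) 1 + w (2 * j) 3) / 2) / 2 := rfl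
  rw [e, w_neg]
  push_cast
  norm_num
  ring

theorem t_succ_succ (j k : ℕ) : t (j + 1) (k + 1) = (t j k + 2 * t j (k + 1) + t j (k + 2)) / 4 := by
  simp only [t]
  have e : w (2 * (j + 1)) (2 * ((k + 1 : ℕ) : ℤ) + 1) =
      ((w (2 * j) (2 * ((k + 1 : ℕ) : ℤ) + 1 - 1 - 1) + w (2 * j) (2 * ((k + 1 : ℕ) : ℤ) + 1 - 1 + 1)) / 2 +
      (w (2 * j) (2 * ((k + 1 : ℕ) : ℤ) + 1 + 1 - 1) + w (2 * j) (2 * ((k + 1 : ℕ) : ℤ) + 1 + 1 + 1)) / 2) / 2 := rfl
  rw [e]
  have e1 : 2 * ((k + 1 : ℕ) : ℤ) + 1 - 1 - 1 = 2 * (k : ℤ) + 1 := by push_cast; ring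
  have e2 : 2 * ((k + 1 : ℕ) : ℤ) + 1 - 1 + 1 = 2 * ((k + 1 : ℕ) : ℤ) + 1 := by push_cast; ring
  have e3 : 2 * ((k + 1 : ℕ) : ℤ) + 1 + 1 - 1 = 2 * ((k + 1 : ℕ) : ℤ) + 1 := by push_cast; ring
  have e4 : 2 * ((k + 1 : ℕ) : ℤ) + 1 + 1 + 1 = 2 * ((k + 2 : ℕ) : ℤ) + 1 := by push_cast; ring
  rw [e1, e2, e3, e4]
  ring

theorem t_lt (j k : ℕ) (h : j < k) : t j k = 0 := by
  rw [t]
  exact w_supp _ _ (by push_cast; omega)

theorem t_nonneg (j : ℕ) : ∀ k, 0 ≤ t j k := by
  induction j with
  | zero => intro k; rw [t_zero]; split_ifs <;> norm_num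
  | succ j ih =>
    intro k
    rcases k with _ | k
    · rw [t_succ_zero]
      have := ih 0
      have := ih 1
      positivity
    · rw [t_succ_succ]
      have := ih k
      have := ih (k + 1)
      have := ih (k + 2)
      positivity

/-- the pairing of the walk with the columns of `al` -/
noncomputable def be (N n m : ℕ) : ℝ := ∑ k ∈ range N, w n (k : ℤ) * al k m

theorem be_step (N n m : ℕ) (hN : n + 3 < N) :
    ((n : ℝ) + 3) * be (N + 1) (n + 2) (m + 1) - (n + 1) * be (N + 1) n (m + 1) =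
      (m + 1) * be N (n + 1) m := by
  simp only [be]
  rw [Finset.mul_sum, Finset.mul_sum, ← Finset.sum_sub_distrib]
  have h1 : ∀ k ∈ range (N + 1), ((n : ℝ) + 3) * (w (n + 2) (k : ℤ) * al k (m + 1)) - (n + 1) * (w n (k : ℤ) * al k (m + 1)) =
      (w (n + 1) ((k : ℤ) - 1) * (k * al k (m + 1))) / 2 - (w (n + 1) ((k : ℤ) + 1) * (k * al k (m + 1))) / 2 := by
    intro k _
    have := w_E n (k : ℤ)
    push_cast at this
    linear_combination (al k (m + 1)) * this
  rw [Finset.sum_congr rfl h1, Finset.sum_sub_distrib, Finset.sum_range_succ']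
  have hz : (w (n + 1) (((0 : ℕ) : ℤ) - 1) * (((0 : ℕ) : ℝ) * al 0 (m + 1))) / 2 = 0 := by
    push_cast; ring
  rw [hz, add_zero]
  have hsplit : ∑ k ∈ range (N + 1), (w (n + 1) ((k : ℤ) + 1) * (k * al k (m + 1))) / 2 =
      ∑ k ∈ range (N - 1), (w (n + 1) ((k : ℤ) + 1) * (k * al k (m + 1))) / 2 := by
    symm
    refine Finset.sum_subset (by intro a; simp only [mem_range]; omega) ?_
    intro k _ hk
    rw [w_supp (n + 1) ((k : ℤ) + 1) (by push_cast; simp only [mem_range] at hk; omega)]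
    ring
  rw [hsplit]
  obtain ⟨M, rfl⟩ : ∃ M, N = M + 1 := ⟨N - 1, by omega⟩
  rw [Nat.add_sub_cancel, Finset.sum_range_succ', Finset.mul_sum, Finset.sum_range_succ' _ M]
  have h0 : w (n + 1) (((0 + 1 : ℕ) : ℤ) - 1) * (((0 + 1 : ℕ) : ℝ) * al (0 + 1) (m + 1)) / 2 = 0 := by
    have : ((0 + 1 : ℕ) : ℤ) - 1 = 0 := by norm_num
    rw [this, w_zero_right]; ring
  have h0' : ((m : ℝ) + 1) * (w (n + 1) ((0 : ℕ) : ℤ) * al 0 m) = 0 := by
    rw [Nat.cast_zero, w_zero_right]; ring
  rw [h0, h0', add_zero, add_zero, ← Finset.sum_sub_distrib]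
  refine Finset.sum_congr rfl fun k _ => ?_
  have e1 : ((k + 1 + 1 : ℕ) : ℤ) - 1 = (k : ℤ) + 1 := by push_cast; ring
  have e2 : ((k + 1 : ℕ) : ℤ) = (k : ℤ) + 1 := by push_cast; ring
  rw [e1, e2]
  have := al_rec k m
  push_cast
  linear_combination (w (n + 1) ((k : ℤ) + 1)) / 2 * this

theorem be_indep (N n m : ℕ) (hN : n + 2 ≤ N) : be N n m = be (n + 2) n m := by
  simp only [be]
  symm
  refine Finset.sum_subset (by intro a; simp only [mem_range]; omega) ?_
  intro k _ hk
  rw [w_supp n (k : ℤ) (by simp only [mem_range] at hk; omega)]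
  ring

theorem be_eq (m : ℕ) : ∀ n, be (n + 2) n m = (1 / 2) ^ m * al (n + 1) m := by
  induction m with
  | zero =>
    intro n
    rw [al_zero_right, if_neg (by omega), mul_zero, be]
    refine Finset.sum_eq_zero fun k _ => ?_
    rw [al_zero_right]
    split_ifs with h
    · subst h; rw [Nat.cast_zero, w_zero_right]; ring
    · ring
  | succ m ihm =>
    intro n
    induction n using Nat.strong_induction_on with
    | _ n ih =>
      rcases n with _ | _ | n
      · have : be (0 + 2) 0 (m + 1) = 1 / 2 * al 1 (m + 1) := by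
          rw [be]
          simp only [Finset.sum_range_succ, Finset.sum_range_zero]
          rw [w_zero, w_zero]
          norm_num
        rw [this]
        rcases m with _ | m
        · simp
        · rw [zero_add, al_lt (m + 1 + 1) 1 (by omega)]; ring
      · have h2 : w (0 + 1) 2 = 1 / 4 := by
          rw [w_succ, w_zero, w_zero]; norm_num
        have : be (0 + 1 + 2) (0 + 1) (m + 1) = 1 / 4 * al 2 (m + 1) := by
          rw [be]
          simp only [Finset.sum_range_succ, Finset.sum_range_zero]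
          have hw1 : w (0 + 1) ((1 : ℕ) : ℤ) = 0 := w_parity (0 + 1) _ (by norm_num)
          have hw0 : w (0 + 1) ((0 : ℕ) : ℤ) = 0 := by rw [Nat.cast_zero, w_zero_right]
          rw [hw0, hw1]
          have : w (0 + 1) ((2 : ℕ) : ℤ) = 1 / 4 := h2
          rw [this]
          ring
        rw [this]
        rcases m with _ | _ | m
        · rw [al_parity (0 + 1) (0 + 1 + 1) (by norm_num)]; ring
        · norm_num
        · rw [al_lt (m + 1 + 1 + 1) 2 (by omega)]; ring
      · have h := be_step (n + 4) n m (by omega)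
        rw [be_indep (n + 4 + 1) (n + 2) (m + 1) (by omega), be_indep (n + 4 + 1) n (m + 1) (by omega),
          be_indep (n + 4) (n + 1) m (by omega), ih n (by omega), ihm (n + 1)] at h
        have h3 := al_rec (n + 1) m
        have hn : ((n : ℝ) + 3) ≠ 0 := by positivity
        have e : ((n : ℝ) + 3) * (be (n + 1 + 1 + 2) (n + 1 + 1) (m + 1) - (1 / 2) ^ (m + 1) * al (n + 1 + 1 + 1) (m + 1)) = 0 := by
          push_cast at h3
          have h' : ((n : ℝ) + 3) * be (n + 1 + 1 + 2) (n + 1 + 1) (m + 1) - (n + 1) * ((1 / 2) ^ (m + 1) * al (n + 1) (m + 1)) =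
            (m + 1) * ((1 / 2) ^ m * al (n + 1 + 1) m) := h
          have h3' : ((n : ℝ) + 1 + 2) * al (n + 1 + 1 + 1) (m + 1) = (n + 1) * al (n + 1) (m + 1) + 2 * (m + 1) * al (n + 1 + 1) m := h3
          rw [pow_succ] at h' ⊢
          linear_combination h' - (1 / 2) ^ m * (1 / 2) * h3'
        exact sub_eq_zero.1 ((mul_eq_zero.1 e).resolve_left hn)

theorem t_al (i m : ℕ) : ∑ k ∈ range (i + 1), t i k * al (2 * k + 1) m = (1 / 2) ^ m * al (2 * i + 1) m := by
  rw [← be_eq m (2 * i), be]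
  have : ∀ M, ∑ k ∈ range (2 * M), w (2 * i) (k : ℤ) * al k m =
      ∑ k ∈ range M, t i k * al (2 * k + 1) m := by
    intro M
    induction M with
    | zero => simp
    | succ M ih =>
      rw [show 2 * (M + 1) = 2 * M + 1 + 1 by ring, Finset.sum_range_succ, Finset.sum_range_succ, ih,
        Finset.sum_range_succ, w_parity (2 * i) ((2 * M : ℕ) : ℤ) (by push_cast; omega), t]
      push_cast
      ring
  rw [show 2 * i + 2 = 2 * (i + 1) by ring, this]

theorem t_row (j : ℕ) : ∀ N, ∑ k ∈ range N, t j k ≤ 1 / 2 := by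
  have hstep : ∀ j N, ∑ k ∈ range (N + 1), t (j + 1) k ≤ ∑ k ∈ range (N + 2), t j k := by
    intro j N
    rw [Finset.sum_range_succ', t_succ_zero]
    simp only [t_succ_succ]
    have h1 : ∑ k ∈ range N, (t j k + 2 * t j (k + 1) + t j (k + 2)) / 4 =
        (∑ k ∈ range N, t j k + 2 * ∑ k ∈ range N, t j (k + 1) + ∑ k ∈ range N, t j (k + 2)) / 4 := by
      rw [Finset.mul_sum, ← Finset.sum_add_distrib, ← Finset.sum_add_distrib, Finset.sum_div]
    rw [h1]
    have h2 : ∑ k ∈ range (N + 2), t j k = ∑ k ∈ range N, t j (k + 2) + t j 1 + t j 0 := by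
      rw [Finset.sum_range_succ', Finset.sum_range_succ']
    have h3 : ∑ k ∈ range N, t j k ≤ ∑ k ∈ range (N + 2), t j k :=
      Finset.sum_le_sum_of_subset_of_nonneg (by intro a; simp only [mem_range]; omega)
        (fun i _ _ => t_nonneg j i)
    have h4 : ∑ k ∈ range N, t j (k + 1) ≤ ∑ k ∈ range (N + 2), t j k := by
      have : ∑ k ∈ range (N + 2), t j k = ∑ k ∈ range N, t j (k + 1) + t j (N + 1) + t j 0 := by
        rw [Finset.sum_range_succ', Finset.sum_range_succ]
      rw [this]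
      have := t_nonneg j (N + 1)
      have := t_nonneg j 0
      linarith
    linarith
  induction j with
  | zero =>
    intro N
    have : ∑ k ∈ range N, t 0 k ≤ ∑ k ∈ range (N + 1), t 0 k :=
      Finset.sum_le_sum_of_subset_of_nonneg (by intro a; simp only [mem_range]; omega)
        (fun i _ _ => t_nonneg 0 i)
    refine this.trans ?_
    rw [Finset.sum_range_succ']
    simp [t_zero]
  | succ j ih =>
    intro N
    have : ∑ k ∈ range N, t (j + 1) k ≤ ∑ k ∈ range (N + 1), t (j + 1) k :=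
      Finset.sum_le_sum_of_subset_of_nonneg (by intro a; simp only [mem_range]; omega)
        (fun i _ _ => t_nonneg (j + 1) i)
    exact this.trans ((hstep j N).trans (ih _))

theorem t_col (N : ℕ) : ∀ k, ∑ j ∈ range N, t j k ≤ 1 := by
  induction N with
  | zero => intro k; simp
  | succ N ih =>
    intro k
    rw [Finset.sum_range_succ']
    rcases k with _ | k
    · simp only [t_succ_zero]
      rw [← Finset.sum_div, Finset.sum_add_distrib, t_zero, if_pos rfl]
      have := ih 0
      have := ih 1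
      linarith
    · simp only [t_succ_succ]
      rw [← Finset.sum_div, Finset.sum_add_distrib, Finset.sum_add_distrib, ← Finset.mul_sum, t_zero,
        if_neg (by omega)]
      have := ih k
      have := ih (k + 1)
      have := ih (k + 2)
      linarith

theorem t_le_one (j k : ℕ) : t j k ≤ 1 := by
  have h := t_col (j + 1) k
  rw [Finset.sum_range_succ] at h
  have : 0 ≤ ∑ j ∈ range j, t j k := Finset.sum_nonneg (fun i _ => t_nonneg i k)
  linarith

end Pool.Agent.V1197.CW
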