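import Pool.Agent.V1197.CW.Ser

/-! Boundary values and bounds. -/

namespace Pool.Agent.V1197.CW
open Finset MeasureTheory Set
open scoped ComplexConjugate

noncomputable def Zp (ρ θ : ℝ) : ℂ := (ρ : ℂ) * Complex.exp ((θ : ℂ) * Complex.I)

noncomputable def Xp (ρ θ : ℝ) : ℂ := cc * Lg (Zp ρ θ)

theorem Zp_norm (ρ θ : ℝ) (h : 0 ≤ ρ) : ‖Zp ρ θ‖ = ρ := by
  rw [Zp, norm_mul, Complex.norm_exp_ofReal_mul_I, mul_one, Complex.norm_real, Real.norm_of_nonneg h]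

theorem Zp_re (ρ θ : ℝ) : (Zp ρ θ).re = ρ * Real.cos θ := by
  rw [Zp, Complex.re_ofReal_mul, Complex.exp_ofReal_mul_I_re]

theorem Zp_im (ρ θ : ℝ) : (Zp ρ θ).im = ρ * Real.sin θ := by
  rw [Zp, Complex.im_ofReal_mul, Complex.exp_ofReal_mul_I_im]

theorem norm_add_ge (ρ θ : ℝ) : |Real.sin θ| ≤ ‖1 + Zp ρ θ‖ := by
  refine abs_le_of_sq_le_sq ?_ (norm_nonneg _)
  rw [Complex.sq_norm, Complex.normSq_apply, Complex.add_re, Complex.add_im, Complex.one_re, Complex.one_im,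
    Zp_re, Zp_im]
  nlinarith [Real.sin_sq_add_cos_sq θ, sq_nonneg (ρ + Real.cos θ)]

theorem norm_sub_ge (ρ θ : ℝ) : |Real.sin θ| ≤ ‖1 - Zp ρ θ‖ := by
  refine abs_le_of_sq_le_sq ?_ (norm_nonneg _)
  rw [Complex.sq_norm, Complex.normSq_apply, Complex.sub_re, Complex.sub_im, Complex.one_re, Complex.one_im,
    Zp_re, Zp_im]
  nlinarith [Real.sin_sq_add_cos_sq θ, sq_nonneg (ρ - Real.cos θ)]

theorem log_bound (w : ℂ) (s : ℝ) (hs : 0 < s) (hs1 : s ≤ 1) (h1 : s ≤ ‖w‖) (h2 : ‖w‖ ≤ 2) :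
    ‖Complex.log w‖ ≤ 1 - Real.log s + Real.pi := by
  refine (Complex.norm_le_abs_re_add_abs_im _).trans ?_
  rw [Complex.log_re, Complex.log_im]
  have h3 := Complex.abs_arg_le_pi w
  have h4 : |Real.log ‖w‖| ≤ 1 - Real.log s := by
    have hl := Real.log_nonpos hs.le hs1
    rw [abs_le]
    constructor
    · have := Real.log_le_log hs h1
      linarith
    · have := Real.log_le_log (lt_of_lt_of_le hs h1) h2
      have := Real.log_two_lt_d9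
      linarith
  linarith

theorem Lg_bound (ρ θ : ℝ) (h0 : 0 ≤ ρ) (h1 : ρ ≤ 1) (hθ : θ ∈ Ioo 0 Real.pi) :
    ‖Lg (Zp ρ θ)‖ ≤ 2 * (1 - Real.log (Real.sin θ) + Real.pi) := by
  have hs : 0 < Real.sin θ := Real.sin_pos_of_pos_of_lt_pi hθ.1 hθ.2
  have hs1 := Real.sin_le_one θ
  have hn := Zp_norm ρ θ h0
  rw [Lg]
  refine (norm_sub_le _ _).trans ?_
  have a1 := log_bound (1 + Zp ρ θ) _ hs hs1 ((le_abs_self _).trans (norm_add_ge ρ θ)) (by
    refine (norm_add_le _ _).trans ?_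
    rw [norm_one, hn]; linarith)
  have a2 := log_bound (1 - Zp ρ θ) _ hs hs1 ((le_abs_self _).trans (norm_sub_ge ρ θ)) (by
    refine (norm_sub_le _ _).trans ?_
    rw [norm_one, hn]; linarith)
  linarith

theorem cc_norm : ‖cc‖ ≤ 1 := by
  rw [cc, norm_div, Complex.norm_I, Complex.norm_real, Real.norm_of_nonneg Real.pi_pos.le]
  have := Real.pi_gt_three
  rw [div_le_one (by linarith)]
  linarith

theorem g_bound (n : ℕ) : ∃ K : ℝ, 0 ≤ K ∧ ∀ x : ℂ, ‖g n x‖ ≤ K * Real.exp (‖x‖ / 8) := by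
  refine ⟨∑ m ∈ range (n + 1), |al n m| * 8 ^ m, Finset.sum_nonneg fun m _ => by positivity, fun x => ?_⟩
  rw [g, Finset.sum_mul]
  refine (norm_sum_le _ _).trans (Finset.sum_le_sum fun m _ => ?_)
  rw [norm_mul, norm_div, norm_pow, Complex.norm_real, Real.norm_eq_abs, Complex.norm_natCast, mul_assoc]
  refine mul_le_mul_of_nonneg_left ?_ (abs_nonneg _)
  have h := Real.pow_div_factorial_le_exp (‖x‖ / 8) (by positivity) m
  have h8 : (0 : ℝ) < 8 ^ m := by positivity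
  calc ‖x‖ ^ m / (m.factorial : ℝ) = 8 ^ m * ((‖x‖ / 8) ^ m / (m.factorial : ℝ)) := by
        rw [div_pow]; field_simp
    _ ≤ 8 ^ m * Real.exp (‖x‖ / 8) := mul_le_mul_of_nonneg_left h h8.le

noncomputable def bd (θ : ℝ) : ℝ := Real.exp (-(1 / 4) * Real.log (Real.sin θ))

theorem g_Xp_bound (n : ℕ) : ∃ K : ℝ, 0 ≤ K ∧ ∀ ρ θ : ℝ, 0 ≤ ρ → ρ ≤ 1 → θ ∈ Ioo 0 Real.pi →
    ‖g n (Xp ρ θ)‖ ≤ K * bd θ := by
  obtain ⟨K, hK, h⟩ := g_bound n
  refine ⟨K * Real.exp ((1 + Real.pi) / 4), by positivity, fun ρ θ h0 h1 hθ => ?_⟩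
  refine (h _).trans ?_
  rw [mul_assoc, bd, ← Real.exp_add]
  refine mul_le_mul_of_nonneg_left (Real.exp_le_exp.2 ?_) hK
  have h2 : ‖Xp ρ θ‖ ≤ ‖Lg (Zp ρ θ)‖ := by
    rw [Xp, norm_mul]
    exact mul_le_of_le_one_left (norm_nonneg _) cc_norm
  have h3 := Lg_bound ρ θ h0 h1 hθ
  linarith

theorem bd_sq (θ : ℝ) (hθ : θ ∈ Ioo 0 Real.pi) : bd θ * bd θ ≤ (Real.pi / 2) ^ (1 / 2 : ℝ) *
    (θ ^ (-(1 / 2) : ℝ) + (Real.pi - θ) ^ (-(1 / 2) : ℝ)) := by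
  have hs : 0 < Real.sin θ := Real.sin_pos_of_pos_of_lt_pi hθ.1 hθ.2
  have hpi := Real.pi_pos
  have e : bd θ * bd θ = Real.sin θ ^ (-(1 / 2) : ℝ) := by
    rw [bd, ← Real.exp_add, Real.rpow_def_of_pos hs]
    congr 1
    ring
  have hp1 : 0 ≤ θ ^ (-(1 / 2) : ℝ) := Real.rpow_nonneg hθ.1.le _
  have hp2 : 0 ≤ (Real.pi - θ) ^ (-(1 / 2) : ℝ) := Real.rpow_nonneg (by linarith [hθ.2]) _
  have key : ∀ y : ℝ, 0 < y → y ≤ Real.pi / 2 → Real.sin y ^ (-(1 / 2) : ℝ) ≤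
      (Real.pi / 2) ^ (1 / 2 : ℝ) * y ^ (-(1 / 2) : ℝ) := by
    intro y hy hy2
    have h1 : 2 / Real.pi * y ≤ Real.sin y := Real.mul_le_sin hy.le hy2
    have h2 : Real.sin y ^ (-(1 / 2) : ℝ) ≤ (2 / Real.pi * y) ^ (-(1 / 2) : ℝ) :=
      Real.rpow_le_rpow_of_nonpos (by positivity) h1 (by norm_num)
    refine h2.trans (le_of_eq ?_)
    rw [Real.mul_rpow (by positivity) hy.le]
    congr 1
    rw [Real.rpow_neg (by positivity), ← Real.inv_rpow (by positivity), inv_div]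
  have hc : 0 ≤ (Real.pi / 2) ^ (1 / 2 : ℝ) := by positivity
  rw [e, mul_add]
  rcases le_total θ (Real.pi / 2) with h | h
  · have := key θ hθ.1 h
    nlinarith [mul_nonneg hc hp2]
  · have := key (Real.pi - θ) (by linarith [hθ.2]) (by linarith)
    rw [Real.sin_pi_sub] at this
    nlinarith [mul_nonneg hc hp1]

theorem bd_meas : Measurable bd := by
  unfold bd
  exact Real.measurable_exp.comp ((Real.measurable_log.comp Real.measurable_sin).const_mul _)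

theorem bd_integrable : IntegrableOn (fun θ => bd θ * bd θ) (Ioo 0 Real.pi) := by
  have h1 : IntegrableOn (fun θ : ℝ => θ ^ (-(1 / 2) : ℝ)) (Ioo 0 Real.pi) := by
    have := intervalIntegral.intervalIntegrable_rpow' (a := 0) (b := Real.pi) (r := (-(1 / 2) : ℝ)) (by norm_num)
    exact ((intervalIntegrable_iff_integrableOn_Ioc_of_le Real.pi_pos.le).1 this).mono_set Ioo_subset_Ioc_self
  have h2 : IntegrableOn (fun θ : ℝ => (Real.pi - θ) ^ (-(1 / 2) : ℝ)) (Ioo 0 Real.pi) := by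
    have := (intervalIntegral.intervalIntegrable_rpow' (a := Real.pi) (b := 0) (r := (-(1 / 2) : ℝ)) (by norm_num)).comp_sub_left Real.pi
    rw [sub_self, sub_zero] at this
    exact ((intervalIntegrable_iff_integrableOn_Ioc_of_le Real.pi_pos.le).1 this).mono_set Ioo_subset_Ioc_self
  have h3 := (h1.add h2).const_mul ((Real.pi / 2) ^ (1 / 2 : ℝ))
  refine Integrable.mono' h3 (bd_meas.mul bd_meas).aestronglyMeasurable ?_
  refine ae_restrict_of_forall_mem measurableSet_Ioo fun θ hθ => ?_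
  rw [Real.norm_of_nonneg (by rw [bd]; positivity)]
  exact bd_sq θ hθ

theorem Xp_meas (ρ : ℝ) : Measurable (Xp ρ) := by
  unfold Xp Lg Zp
  have h : Measurable (fun θ : ℝ => (ρ : ℂ) * Complex.exp ((θ : ℂ) * Complex.I)) := by fun_prop
  exact ((Complex.measurable_log.comp (h.const_add 1)).sub (Complex.measurable_log.comp (h.const_sub 1))).const_mul _

theorem g_cont (n : ℕ) : Continuous (g n) := by
  unfold g
  fun_prop

theorem gX_meas (n : ℕ) (ρ : ℝ) : Measurable (fun θ => g n (Xp ρ θ)) := (g_cont n).measurable.comp (Xp_meas ρ)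

noncomputable def Fn (n m : ℕ) (ρ θ : ℝ) : ℂ := g n (Xp ρ θ) * conj (g m (Xp ρ θ))

theorem Fn_meas (n m : ℕ) (ρ : ℝ) : Measurable (Fn n m ρ) :=
  (gX_meas n ρ).mul (Complex.continuous_conj.measurable.comp (gX_meas m ρ))

theorem Fn_bound (n m : ℕ) : ∃ K : ℝ, 0 ≤ K ∧ ∀ ρ θ : ℝ, 0 ≤ ρ → ρ ≤ 1 → θ ∈ Ioo 0 Real.pi →
    ‖Fn n m ρ θ‖ ≤ K * (bd θ * bd θ) := by
  obtain ⟨K1, hK1, h1⟩ := g_Xp_bound n
  obtain ⟨K2, hK2, h2⟩ := g_Xp_bound m
  refine ⟨K1 * K2, mul_nonneg hK1 hK2, fun ρ θ h0 hρ hθ => ?_⟩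
  rw [Fn, norm_mul, RCLike.norm_conj]
  have hb : 0 ≤ bd θ := (Real.exp_pos _).le
  calc _ ≤ (K1 * bd θ) * (K2 * bd θ) :=
        mul_le_mul (h1 ρ θ h0 hρ hθ) (h2 ρ θ h0 hρ hθ) (norm_nonneg _) (mul_nonneg hK1 hb)
    _ = _ := by ring

theorem Fn_integrable (n m : ℕ) (ρ : ℝ) (h0 : 0 ≤ ρ) (h1 : ρ ≤ 1) : IntegrableOn (Fn n m ρ) (Ioo 0 Real.pi) := by
  obtain ⟨K, _, h⟩ := Fn_bound n m
  refine Integrable.mono' (bd_integrable.const_mul K) (Fn_meas n m ρ).aestronglyMeasurable ?_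
  exact ae_restrict_of_forall_mem measurableSet_Ioo fun θ hθ => h ρ θ h0 h1 hθ

theorem Xp_tendsto (θ : ℝ) (hθ : θ ∈ Ioo 0 Real.pi) :
    Filter.Tendsto (fun ρ => Xp ρ θ) (nhds 1) (nhds (Xp 1 θ)) := by
  have hs : 0 < Real.sin θ := Real.sin_pos_of_pos_of_lt_pi hθ.1 hθ.2
  have hZ : ContinuousAt (fun ρ : ℝ => Zp ρ θ) 1 := by
    unfold Zp; fun_prop
  have h1 : 1 + Zp 1 θ ∈ Complex.slitPlane := by
    refine Or.inr ?_
    rw [Complex.add_im, Complex.one_im, Zp_im]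
    have : 0 + 1 * Real.sin θ = Real.sin θ := by ring
    rw [this]
    exact hs.ne'
  have h2 : 1 - Zp 1 θ ∈ Complex.slitPlane := by
    refine Or.inr ?_
    rw [Complex.sub_im, Complex.one_im, Zp_im]
    have : 0 - 1 * Real.sin θ = -Real.sin θ := by ring
    rw [this]
    exact neg_ne_zero.2 hs.ne'
  have c1 : ContinuousAt (fun ρ : ℝ => Complex.log (1 + Zp ρ θ)) 1 :=
    ContinuousAt.clog (continuousAt_const.add hZ) h1
  have c2 : ContinuousAt (fun ρ : ℝ => Complex.log (1 - Zp ρ θ)) 1 :=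
    ContinuousAt.clog (continuousAt_const.sub hZ) h2
  exact (continuousAt_const.mul (c1.sub c2)).tendsto

theorem Fn_tendsto (n m : ℕ) (θ : ℝ) (hθ : θ ∈ Ioo 0 Real.pi) :
    Filter.Tendsto (fun ρ => Fn n m ρ θ) (nhds 1) (nhds (Fn n m 1 θ)) := by
  have h := Xp_tendsto θ hθ
  unfold Fn
  exact (((g_cont n).tendsto _).comp h).mul
    ((Complex.continuous_conj.tendsto _).comp (((g_cont m).tendsto _).comp h))

noncomputable def In (n m : ℕ) (ρ : ℝ) : ℂ := ∫ θ in Ioo 0 Real.pi, Fn n m ρ θ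

theorem In_tendsto (n m : ℕ) :
    Filter.Tendsto (In n m) (nhdsWithin 1 (Iio 1)) (nhds (In n m 1)) := by
  obtain ⟨K, _, h⟩ := Fn_bound n m
  unfold In
  have hev : ∀ᶠ ρ in nhdsWithin (1 : ℝ) (Iio 1), 0 ≤ ρ ∧ ρ ≤ 1 := by
    have h1 : ∀ᶠ ρ in nhdsWithin (1 : ℝ) (Iio 1), ρ < 1 := eventually_nhdsWithin_of_forall fun x hx => hx
    have h2 : ∀ᶠ ρ in nhdsWithin (1 : ℝ) (Iio 1), 0 < ρ :=
      (eventually_gt_nhds (by norm_num : (0 : ℝ) < 1)).filter_mono nhdsWithin_le_nhds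
    filter_upwards [h1, h2] with ρ a b
    exact ⟨b.le, a.le⟩
  refine tendsto_integral_filter_of_dominated_convergence (fun θ => K * (bd θ * bd θ)) ?_ ?_
    (bd_integrable.const_mul K) ?_
  · exact Filter.Eventually.of_forall fun ρ => (Fn_meas n m ρ).aestronglyMeasurable
  · filter_upwards [hev] with ρ hρ
    exact ae_restrict_of_forall_mem measurableSet_Ioo fun θ hθ => h ρ θ hρ.1 hρ.2 hθ
  · exact ae_restrict_of_forall_mem measurableSet_Ioo fun θ hθ =>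
      (Fn_tendsto n m θ hθ).mono_left nhdsWithin_le_nhds

end Pool.Agent.V1197.CW
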