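import Pool.Agent.V1197.CW.Alg

/-! The operator on `ℓ²`, its boundedness and its generating functions. -/

namespace Pool.Agent.V1197.CW
open Finset
open scoped ComplexConjugate

/-- the Hardy space as the space of square-summable Taylor coefficients -/
abbrev H2 : Type := lp (fun _ : ℕ => ℂ) 2

noncomputable def Tfun (a : ℕ → ℂ) (j : ℕ) : ℂ := ∑ k ∈ range (j + 1), (t j k : ℂ) * a k

theorem Tfun_eq (a : ℕ → ℂ) (j N : ℕ) (h : j < N) : Tfun a j = ∑ k ∈ range N, (t j k : ℂ) * a k := by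
  rw [Tfun]
  refine Finset.sum_subset (by intro b; simp only [mem_range]; omega) ?_
  intro k _ hk
  rw [t_lt j k (by simpa using hk)]
  simp

theorem Tfun_sq (a : ℕ → ℂ) (j N : ℕ) (h : j < N) :
    ‖Tfun a j‖ ^ 2 ≤ ∑ k ∈ range N, t j k * ‖a k‖ ^ 2 := by
  have h1 : ‖Tfun a j‖ ≤ ∑ k ∈ range N, t j k * ‖a k‖ := by
    rw [Tfun_eq a j N h]
    refine (norm_sum_le _ _).trans (Finset.sum_le_sum fun k _ => ?_)
    rw [norm_mul, Complex.norm_real, Real.norm_of_nonneg (t_nonneg j k)]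
  have h2 : (∑ k ∈ range N, t j k * ‖a k‖) ^ 2 ≤ (∑ k ∈ range N, t j k) * ∑ k ∈ range N, t j k * ‖a k‖ ^ 2 := by
    refine Finset.sum_sq_le_sum_mul_sum_of_sq_le_mul _ (fun k _ => t_nonneg j k) (fun k _ => ?_) (fun k _ => ?_)
    · exact mul_nonneg (t_nonneg j k) (by positivity)
    · exact le_of_eq (by ring)
  have h3 : 0 ≤ ∑ k ∈ range N, t j k * ‖a k‖ ^ 2 :=
    Finset.sum_nonneg fun k _ => mul_nonneg (t_nonneg j k) (by positivity)
  calc ‖Tfun a j‖ ^ 2 ≤ (∑ k ∈ range N, t j k * ‖a k‖) ^ 2 := by gcongr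
    _ ≤ (∑ k ∈ range N, t j k) * ∑ k ∈ range N, t j k * ‖a k‖ ^ 2 := h2
    _ ≤ 1 * ∑ k ∈ range N, t j k * ‖a k‖ ^ 2 := by
        refine mul_le_mul_of_nonneg_right ?_ h3
        have := t_row j N
        linarith
    _ = _ := one_mul _

theorem Tfun_bound (a : ℕ → ℂ) (N : ℕ) :
    ∑ j ∈ range N, ‖Tfun a j‖ ^ 2 ≤ ∑ k ∈ range N, ‖a k‖ ^ 2 := by
  calc ∑ j ∈ range N, ‖Tfun a j‖ ^ 2 ≤ ∑ j ∈ range N, ∑ k ∈ range N, t j k * ‖a k‖ ^ 2 :=
        Finset.sum_le_sum fun j hj => Tfun_sq a j N (mem_range.1 hj)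
    _ = ∑ k ∈ range N, (∑ j ∈ range N, t j k) * ‖a k‖ ^ 2 := by
        rw [Finset.sum_comm]
        refine Finset.sum_congr rfl fun k _ => ?_
        rw [Finset.sum_mul]
    _ ≤ ∑ k ∈ range N, 1 * ‖a k‖ ^ 2 :=
        Finset.sum_le_sum fun k _ => mul_le_mul_of_nonneg_right (t_col N k) (by positivity)
    _ = _ := by simp

theorem H2_sum_le (a : H2) (s : Finset ℕ) : ∑ k ∈ s, ‖a k‖ ^ 2 ≤ ‖a‖ ^ 2 := by
  have h := lp.sum_rpow_le_norm_rpow (p := 2) (by norm_num) a s
  simpa using h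

theorem Tfun_bound' (a : H2) (s : Finset ℕ) : ∑ j ∈ s, ‖Tfun a j‖ ^ 2 ≤ ‖a‖ ^ 2 := by
  obtain ⟨N, hN⟩ := s.exists_nat_subset_range
  calc ∑ j ∈ s, ‖Tfun a j‖ ^ 2 ≤ ∑ j ∈ range N, ‖Tfun a j‖ ^ 2 :=
        Finset.sum_le_sum_of_subset_of_nonneg hN (fun _ _ _ => by positivity)
    _ ≤ ∑ k ∈ range N, ‖a k‖ ^ 2 := Tfun_bound a N
    _ ≤ _ := H2_sum_le a _

theorem Tfun_mem (a : H2) : Memℓp (Tfun a) 2 := by
  refine memℓp_gen' (C := ‖a‖ ^ 2) fun s => ?_
  simpa using Tfun_bound' a s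

noncomputable def TLin : H2 →ₗ[ℂ] H2 where
  toFun a := ⟨Tfun a, Tfun_mem a⟩
  map_add' a b := by
    ext j
    change Tfun (↑(a + b)) j = Tfun a j + Tfun b j
    simp only [Tfun, lp.coeFn_add, Pi.add_apply]
    rw [← Finset.sum_add_distrib]
    exact Finset.sum_congr rfl fun k _ => by ring
  map_smul' c a := by
    ext j
    change Tfun (↑(c • a)) j = c * Tfun a j
    simp only [Tfun, lp.coeFn_smul, Pi.smul_apply, smul_eq_mul]
    rw [Finset.mul_sum]
    exact Finset.sum_congr rfl fun k _ => by ring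

/-- the operator -/
noncomputable def T : H2 →L[ℂ] H2 := TLin.mkContinuous 1 (by
  intro a
  rw [one_mul]
  refine lp.norm_le_of_forall_sum_le (p := 2) (by norm_num) (norm_nonneg _) fun s => ?_
  have := Tfun_bound' a s
  simpa [TLin] using this)

theorem T_apply (a : H2) (j : ℕ) : (T a) j = ∑ k ∈ range (j + 1), (t j k : ℂ) * a k := rfl

/-- square root of `1 - z` -/
noncomputable def sq (z : ℂ) : ℂ := Complex.exp (Complex.log (1 - z) / 2)

theorem sq_sq (z : ℂ) (hz : ‖z‖ < 1) : sq z ^ 2 = 1 - z := by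
  rw [sq, ← Complex.exp_nat_mul]
  have h : (1 - z) ≠ 0 := by
    intro h
    have : z = 1 := (sub_eq_zero.1 h).symm
    rw [this] at hz
    simp at hz
  have : ((2 : ℕ) : ℂ) * (Complex.log (1 - z) / 2) = Complex.log (1 - z) := by push_cast; ring
  rw [this, Complex.exp_log h]

theorem sq_re (z : ℂ) (hz : ‖z‖ < 1) : 0 < (sq z).re := by
  rw [sq, Complex.exp_re]
  have hre : 0 < (1 - z).re := by
    rw [Complex.sub_re, Complex.one_re]
    have := (Complex.abs_re_le_norm z)
    have := le_abs_self z.re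
    linarith
  have harg : |(1 - z).arg| < Real.pi / 2 := Complex.abs_arg_lt_pi_div_two_iff.2 (Or.inl hre)
  have him : (Complex.log (1 - z) / 2).im = (1 - z).arg / 2 := by
    have : (Complex.log (1 - z) / 2) = ((1 / 2 : ℝ) : ℂ) * Complex.log (1 - z) := by push_cast; ring
    rw [this, Complex.im_ofReal_mul, Complex.log_im]
    ring
  rw [him]
  refine mul_pos (Real.exp_pos _) (Real.cos_pos_of_mem_Ioo ⟨?_, ?_⟩)
  · have := (abs_lt.1 harg).1
    have := Real.pi_pos
    linarith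
  · have := (abs_lt.1 harg).2
    have := Real.pi_pos
    linarith

noncomputable def psi (z : ℂ) : ℂ := 1 / (1 + sq z)
noncomputable def phi (z : ℂ) : ℂ := (1 - sq z) / (1 + sq z)

theorem one_add_sq_ne (z : ℂ) (hz : ‖z‖ < 1) : 1 + sq z ≠ 0 := by
  intro h
  have h1 := sq_re z hz
  have h2 := congrArg Complex.re h
  rw [Complex.add_re, Complex.one_re, Complex.zero_re] at h2
  linarith

theorem phi_norm (z : ℂ) (hz : ‖z‖ < 1) : ‖phi z‖ < 1 := by
  rw [phi, norm_div, div_lt_one (norm_pos_iff.2 (one_add_sq_ne z hz))]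
  have h1 := sq_re z hz
  have h2 : ‖1 - sq z‖ ^ 2 < ‖1 + sq z‖ ^ 2 := by
    rw [Complex.sq_norm, Complex.sq_norm, Complex.normSq_apply, Complex.normSq_apply]
    simp only [Complex.sub_re, Complex.sub_im, Complex.add_re, Complex.add_im, Complex.one_re, Complex.one_im]
    nlinarith
  exact lt_of_pow_lt_pow_left₀ 2 (norm_nonneg _) h2

theorem psi_norm (z : ℂ) (hz : ‖z‖ < 1) : ‖psi z‖ ≤ 1 := by
  rw [psi, norm_div, norm_one]
  have h1 := sq_re z hz
  have h2 : 1 ≤ ‖1 + sq z‖ := by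
    have := Complex.re_le_norm (1 + sq z)
    rw [Complex.add_re, Complex.one_re] at this
    linarith
  exact (div_le_one (by linarith)).2 h2

theorem psi_eq (z : ℂ) (hz : ‖z‖ < 1) : 4 * psi z = 2 + z * psi z * (1 + phi z) := by
  have h := one_add_sq_ne z hz
  have h2 := sq_sq z hz
  have hz' : z = 1 - sq z ^ 2 := by rw [h2]; ring
  rw [psi, phi]
  have : z * (1 / (1 + sq z)) * (1 + (1 - sq z) / (1 + sq z)) = (1 - sq z ^ 2) * (1 / (1 + sq z)) * (1 + (1 - sq z) / (1 + sq z)) := by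
    rw [← hz']
  rw [this]
  field_simp
  ring

theorem phi_eq (z : ℂ) (hz : ‖z‖ < 1) : z * (1 + phi z) ^ 2 = 4 * phi z := by
  have h := one_add_sq_ne z hz
  have h2 := sq_sq z hz
  have hz' : z = 1 - sq z ^ 2 := by rw [h2]; ring
  rw [phi]
  have : z * (1 + (1 - sq z) / (1 + sq z)) ^ 2 = (1 - sq z ^ 2) * (1 + (1 - sq z) / (1 + sq z)) ^ 2 := by
    rw [← hz']
  rw [this]
  field_simp
  ring

theorem gen_summable (k : ℕ) (z : ℂ) (hz : ‖z‖ < 1) : Summable (fun j => (t j k : ℂ) * z ^ j) := by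
  refine Summable.of_norm_bounded (summable_geometric_of_lt_one (norm_nonneg z) hz) fun j => ?_
  rw [norm_mul, norm_pow, Complex.norm_real, Real.norm_of_nonneg (t_nonneg j k)]
  exact mul_le_of_le_one_left (by positivity) (t_le_one j k)

noncomputable def P (k : ℕ) (z : ℂ) : ℂ := ∑' j, (t j k : ℂ) * z ^ j

theorem P_norm (k : ℕ) (z : ℂ) (hz : ‖z‖ < 1) : ‖P k z‖ ≤ 1 := by
  rw [P]
  have hs : Summable fun j => ‖(t j k : ℂ) * z ^ j‖ := by
    refine Summable.of_nonneg_of_le (fun _ => norm_nonneg _) (fun j => ?_)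
      (summable_geometric_of_lt_one (norm_nonneg z) hz)
    rw [norm_mul, norm_pow, Complex.norm_real, Real.norm_of_nonneg (t_nonneg j k)]
    exact mul_le_of_le_one_left (by positivity) (t_le_one j k)
  refine (norm_tsum_le_tsum_norm hs).trans ?_
  refine Real.tsum_le_of_sum_range_le (fun _ => norm_nonneg _) fun N => ?_
  calc ∑ j ∈ range N, ‖(t j k : ℂ) * z ^ j‖ ≤ ∑ j ∈ range N, t j k := by
        refine Finset.sum_le_sum fun j _ => ?_
        rw [norm_mul, norm_pow, Complex.norm_real, Real.norm_of_nonneg (t_nonneg j k)]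
        exact mul_le_of_le_one_right (t_nonneg j k) (pow_le_one₀ (norm_nonneg _) hz.le)
    _ ≤ 1 := t_col N k

theorem P_zero (z : ℂ) (hz : ‖z‖ < 1) : P 0 z = 1 / 2 + z / 4 * (P 0 z + P 1 z) := by
  have h0 := gen_summable 0 z hz
  have h1 := gen_summable 1 z hz
  have : P 0 z = 1 / 2 + ∑' j, (t (j + 1) 0 : ℂ) * z ^ (j + 1) := by
    rw [P, h0.tsum_eq_zero_add, t_zero]
    simp
  refine this.trans ?_
  congr 1
  have e : (fun j => (t (j + 1) 0 : ℂ) * z ^ (j + 1)) =
      fun j => z / 4 * ((t j 0 : ℂ) * z ^ j + (t j 1 : ℂ) * z ^ j) := by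
    funext j
    rw [t_succ_zero]
    push_cast
    ring
  rw [e, tsum_mul_left, h0.tsum_add h1]
  rfl

theorem P_succ (k : ℕ) (z : ℂ) (hz : ‖z‖ < 1) :
    P (k + 1) z = z / 4 * (P k z + 2 * P (k + 1) z + P (k + 2) z) := by
  have h0 := gen_summable k z hz
  have h1 := gen_summable (k + 1) z hz
  have h2 := gen_summable (k + 2) z hz
  have : P (k + 1) z = ∑' j, (t (j + 1) (k + 1) : ℂ) * z ^ (j + 1) := by
    rw [P, h1.tsum_eq_zero_add, t_zero]
    simp
  refine this.trans ?_
  have e : (fun j => (t (j + 1) (k + 1) : ℂ) * z ^ (j + 1)) =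
      fun j => z / 4 * (((t j k : ℂ) * z ^ j + 2 * ((t j (k + 1) : ℂ) * z ^ j)) + (t j (k + 2) : ℂ) * z ^ j) := by
    funext j
    rw [t_succ_succ]
    push_cast
    ring
  rw [e, tsum_mul_left, (h0.add (h1.mul_left 2)).tsum_add h2, h0.tsum_add (h1.mul_left 2), tsum_mul_left]
  rfl

theorem P_eq (k : ℕ) (z : ℂ) (hz : ‖z‖ < 1) : P k z = psi z * phi z ^ k := by
  have hD : ∀ n : ℕ, ∀ k, ‖P k z - psi z * phi z ^ k‖ ≤ 2 * ‖z‖ ^ n := by
    intro n
    induction n with
    | zero =>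
      intro k
      rw [pow_zero, mul_one]
      refine (norm_sub_le _ _).trans ?_
      have h1 := P_norm k z hz
      have h2 : ‖psi z * phi z ^ k‖ ≤ 1 := by
        rw [norm_mul, norm_pow]
        exact mul_le_one₀ (psi_norm z hz) (by positivity) (pow_le_one₀ (norm_nonneg _) (phi_norm z hz).le)
      linarith
    | succ n ih =>
      intro k
      rcases k with _ | k
      · have e : P 0 z - psi z * phi z ^ 0 = z / 4 * ((P 0 z - psi z * phi z ^ 0) + (P 1 z - psi z * phi z ^ 1)) := by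
          have h1 := P_zero z hz
          have h2 := psi_eq z hz
          simp only [pow_zero, pow_one, mul_one]
          linear_combination h1 - h2 / 4
        rw [e, norm_mul, norm_div]
        have := norm_add_le (P 0 z - psi z * phi z ^ 0) (P 1 z - psi z * phi z ^ 1)
        have h0 := ih 0
        have h1 := ih 1
        have hz0 := norm_nonneg z
        have h4 : ‖(4 : ℂ)‖ = 4 := by norm_num
        rw [h4, pow_succ ‖z‖ n]
        have hp : 0 ≤ ‖z‖ ^ n := by positivity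
        calc ‖z‖ / 4 * ‖P 0 z - psi z * phi z ^ 0 + (P 1 z - psi z * phi z ^ 1)‖
            ≤ ‖z‖ / 4 * (4 * ‖z‖ ^ n) := by
              refine mul_le_mul_of_nonneg_left ?_ (by positivity)
              linarith
          _ ≤ 2 * (‖z‖ ^ n * ‖z‖) := by nlinarith [mul_nonneg hp hz0]
      · have e : P (k + 1) z - psi z * phi z ^ (k + 1) = z / 4 * ((P k z - psi z * phi z ^ k) +
            2 * (P (k + 1) z - psi z * phi z ^ (k + 1)) + (P (k + 2) z - psi z * phi z ^ (k + 2))) := by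
          have h1 := P_succ k z hz
          have h2 := phi_eq z hz
          linear_combination h1 + psi z * phi z ^ k / 4 * h2
        rw [e, norm_mul, norm_div]
        have n1 := norm_add_le (P k z - psi z * phi z ^ k + 2 * (P (k + 1) z - psi z * phi z ^ (k + 1))) (P (k + 2) z - psi z * phi z ^ (k + 2))
        have n2 := norm_add_le (P k z - psi z * phi z ^ k) (2 * (P (k + 1) z - psi z * phi z ^ (k + 1)))
        have n3 : ‖2 * (P (k + 1) z - psi z * phi z ^ (k + 1))‖ = 2 * ‖P (k + 1) z - psi z * phi z ^ (k + 1)‖ := by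
          rw [norm_mul]; norm_num
        have h0 := ih k
        have h1 := ih (k + 1)
        have h2 := ih (k + 2)
        have h4 : ‖(4 : ℂ)‖ = 4 := by norm_num
        rw [h4, pow_succ ‖z‖ n]
        calc _ ≤ ‖z‖ / 4 * (8 * ‖z‖ ^ n) := by
              refine mul_le_mul_of_nonneg_left ?_ (by positivity)
              linarith
          _ = 2 * (‖z‖ ^ n * ‖z‖) := by ring
  have hlim : Filter.Tendsto (fun n : ℕ => 2 * ‖z‖ ^ n) Filter.atTop (nhds (2 * 0)) :=
    (tendsto_pow_atTop_nhds_zero_of_lt_one (norm_nonneg z) hz).const_mul 2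
  rw [mul_zero] at hlim
  have h0 : ‖P k z - psi z * phi z ^ k‖ ≤ 0 :=
    ge_of_tendsto' hlim (fun n => hD n k)
  exact sub_eq_zero.1 (norm_le_zero_iff.1 h0)


/-- the kernel vector at `z` -/
theorem ker_mem (z : ℂ) (hz : ‖z‖ < 1) : Memℓp (fun n : ℕ => conj z ^ n) 2 := by
  refine memℓp_gen ?_
  have : Summable fun n : ℕ => (‖z‖ ^ 2) ^ n :=
    summable_geometric_of_lt_one (by positivity) (by
      have := norm_nonneg z
      nlinarith)
  refine this.congr fun n => ?_
  rw [norm_pow, RCLike.norm_conj]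
  simp only [ENNReal.toReal_ofNat, Real.rpow_ofNat]
  rw [← pow_mul, ← pow_mul, mul_comm]

noncomputable def ker (z : ℂ) (hz : ‖z‖ < 1) : H2 := ⟨fun n => conj z ^ n, ker_mem z hz⟩

/-- evaluation of the function with Taylor coefficients `a` -/
noncomputable def ev (a : H2) (z : ℂ) : ℂ := ∑' n, a n * z ^ n

theorem ev_eq_inner (a : H2) (z : ℂ) (hz : ‖z‖ < 1) : ev a z = inner ℂ (ker z hz) a := by
  rw [lp.inner_eq_tsum, ev]
  refine tsum_congr fun n => ?_
  change a n * z ^ n = inner ℂ (conj z ^ n) (a n)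
  rw [RCLike.inner_apply, map_pow, Complex.conj_conj]

theorem ev_T (a : H2) (z : ℂ) (hz : ‖z‖ < 1) : ev (T a) z = psi z * ev a (phi z) := by
  have hphi := phi_norm z hz
  let F : H2 →L[ℂ] ℂ := (innerSL ℂ (ker z hz)).comp T
  let G : H2 →L[ℂ] ℂ := psi z • innerSL ℂ (ker (phi z) hphi)
  have hF : ∀ b : H2, F b = ev (T b) z := fun b => (ev_eq_inner (T b) z hz).symm
  have hG : ∀ b : H2, G b = psi z * ev b (phi z) := fun b => by
    rw [ev_eq_inner b (phi z) hphi]; rfl
  rw [← hF, ← hG]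
  have hsum := lp.hasSum_single (E := fun _ : ℕ => ℂ) (p := 2) (by norm_num) a
  have h1 := F.hasSum hsum
  have h2 := G.hasSum hsum
  have heq : ∀ k : ℕ, F (lp.single 2 k (a k)) = G (lp.single 2 k (a k)) := by
    intro k
    rw [hF, hG]
    have e1 : ev (lp.single 2 k (a k)) (phi z) = a k * phi z ^ k := by
      rw [ev, tsum_eq_single k]
      · rw [lp.single_apply_self]
      · intro n hn
        rw [lp.single_apply_ne _ _ _ hn, zero_mul]
    have e2 : ∀ j, (T (lp.single 2 k (a k))) j = (t j k : ℂ) * a k := by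
      intro j
      rw [T_apply]
      have := Tfun_eq (lp.single (E := fun _ : ℕ => ℂ) 2 k (a k) : H2) j (j + k + 1) (by omega)
      rw [Tfun] at this
      rw [this, Finset.sum_eq_single k]
      · rw [lp.single_apply_self]
      · intro n _ hn
        rw [lp.single_apply_ne _ _ _ hn, mul_zero]
      · intro h
        exact absurd (mem_range.2 (by omega)) h
    rw [e1, ev]
    have e3 : (fun j => (T (lp.single 2 k (a k))) j * z ^ j) = fun j => a k * ((t j k : ℂ) * z ^ j) := by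
      funext j
      rw [e2]; ring
    rw [e3, tsum_mul_left]
    have := P_eq k z hz
    rw [P] at this
    rw [this]
    ring
  have h1' : HasSum (fun k => G (lp.single 2 k (a k))) (F a) := by
    rw [← funext heq]
    exact h1
  exact h1'.unique h2


theorem sq_diff (z : ℂ) (hz : ‖z‖ < 1) : DifferentiableAt ℂ sq z := by
  have hre : 0 < (1 - z).re := by
    rw [Complex.sub_re, Complex.one_re]
    have := (Complex.abs_re_le_norm z)
    have := le_abs_self z.re
    linarith
  have h1 : DifferentiableAt ℂ (fun z : ℂ => Complex.log (1 - z)) z :=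
    DifferentiableAt.clog (by fun_prop) (Or.inl hre)
  exact (h1.div_const 2).cexp

theorem psi_diff (z : ℂ) (hz : ‖z‖ < 1) : DifferentiableAt ℂ psi z :=
  DifferentiableAt.div (by fun_prop) ((differentiableAt_const 1).add (sq_diff z hz)) (one_add_sq_ne z hz)

theorem phi_diff (z : ℂ) (hz : ‖z‖ < 1) : DifferentiableAt ℂ phi z :=
  DifferentiableAt.div ((differentiableAt_const 1).sub (sq_diff z hz)) ((differentiableAt_const 1).add (sq_diff z hz)) (one_add_sq_ne z hz)

theorem psi_ne (z : ℂ) (hz : ‖z‖ < 1) : psi z ≠ 0 := by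
  rw [psi]
  exact one_div_ne_zero (one_add_sq_ne z hz)

theorem phi_zero : phi 0 = 0 := by
  have h := phi_eq 0 (by simp)
  rw [zero_mul] at h
  have : (4 : ℂ) ≠ 0 := by norm_num
  exact (mul_eq_zero.1 h.symm).resolve_left this

theorem phi_ne_zero (z : ℂ) (hz : ‖z‖ < 1) (h0 : z ≠ 0) : phi z ≠ 0 := by
  intro h
  have h1 := phi_eq z hz
  rw [h] at h1
  simp at h1
  exact h0 h1

theorem phi_not_lft : ¬ ∃ a b c d : ℂ, a * d - b * c ≠ 0 ∧
    ∀ z : ℂ, ‖z‖ < 1 → phi z * (c * z + d) = a * z + b := by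
  rintro ⟨a, b, c, d, hne, h⟩
  have hb : b = 0 := by
    have := h 0 (by simp)
    rw [phi_zero] at this
    simpa using this.symm
  have key : ∀ z : ℂ, ‖z‖ < 1 → z ≠ 0 → (c * z + d + a * z) ^ 2 = 4 * a * (c * z + d) := by
    intro z hz h0
    have h1 := phi_eq z hz
    have h2 := h z hz
    rw [hb, add_zero] at h2
    have : z * ((c * z + d + a * z) ^ 2 - 4 * a * (c * z + d)) = 0 := by
      have e : z * (c * z + d + a * z) ^ 2 = 4 * (a * z) * (c * z + d) := by
        rw [← h2]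
        linear_combination (c * z + d) ^ 2 * h1
      linear_combination e
    exact sub_eq_zero.1 ((mul_eq_zero.1 this).resolve_left h0)
  have k1 := key (1 / 2) (by norm_num) (by norm_num)
  have k2 := key (-(1 / 2)) (by norm_num) (by norm_num)
  have k3 := key (1 / 4) (by norm_num) (by norm_num)
  have hq : (a + c) ^ 2 = 0 := by
    linear_combination 4 * k1 + (4 / 3) * k2 - (16 / 3) * k3
  have hac : c = -a := by
    have : a + c = 0 := by simpa using hq
    linear_combination this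
  subst hac
  have ha : a ^ 2 = 0 := by
    linear_combination (1 / 4) * (k1 - k2)
  have ha' : a = 0 := by simpa using ha
  exact hne (by rw [ha', hb]; ring)

end Pool.Agent.V1197.CW
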