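import Pool.Agent.V1197.CW.Rec
import Pool.Agent.V1197.CW.Oper

/-! The conjugation. -/

namespace Pool.Agent.V1197.CW
open Finset
open scoped ComplexConjugate

noncomputable def r2 : ℂ := ((Real.sqrt 2 : ℝ) : ℂ)

theorem r2_sq : r2 * conj r2 = 2 := by
  rw [r2, Complex.conj_ofReal, ← Complex.ofReal_mul, Real.mul_self_sqrt (by norm_num)]
  norm_num

theorem r2_ne : r2 ≠ 0 := by
  intro h
  have := r2_sq
  rw [h] at this
  simp at this

noncomputable def b (j k : ℕ) : ℂ := a (2 * j + 1) (2 * k + 1) / r2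

theorem b_symm (j k : ℕ) : b j k = b k j := by rw [b, b, a_symm]

theorem v_odd (k l : ℕ) : v (2 * k + 1) (2 * l + 1) = if k = l then 2 else 0 := by
  split_ifs with h
  · subst h
    exact v_diag _
  · exact v_far _ _ (by omega) (by omega) (by omega)

theorem b_orth (k l : ℕ) : HasSum (fun j => b j k * conj (b j l)) (if k = l then 1 else 0) := by
  have h := a_orth (2 * k + 1) (2 * l + 1) (by omega)
  have hinj : Function.Injective (fun j : ℕ => 2 * j + 1) := fun x y h => by
    simp only at h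
    omega
  have h2 := (hinj.hasSum_iff (f := fun j => a j (2 * k + 1) * conj (a j (2 * l + 1))) (a := v (2 * k + 1) (2 * l + 1)) (by
    intro j hj
    have : j % 2 = 0 := by
      by_contra h3
      exact hj ⟨j / 2, by simp only; omega⟩
    rw [a_parity j (2 * k + 1) (by omega), zero_mul])).2 h
  have h3 := h2.mul_left (1 / (r2 * conj r2))
  have e1 : (fun j => 1 / (r2 * conj r2) * ((fun j => a j (2 * k + 1) * conj (a j (2 * l + 1))) ∘ fun j => 2 * j + 1) j) =
      fun j => b j k * conj (b j l) := by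
    funext j
    simp only [Function.comp_apply, b, map_div₀]
    have h1 := r2_ne
    have h2 : conj r2 ≠ 0 := by simpa using h1
    field_simp
  have e2 : 1 / (r2 * conj r2) * v (2 * k + 1) (2 * l + 1) = if k = l then 1 else 0 := by
    rw [v_odd, r2_sq]
    split_ifs <;> norm_num
  rw [← e1, ← e2]
  exact h3

theorem b_mem (k : ℕ) : Memℓp (fun j => b j k) 2 := by
  refine memℓp_gen ?_
  have h := (b_orth k k).summable.norm
  refine h.congr fun j => ?_
  rw [norm_mul, RCLike.norm_conj]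
  simp only [ENNReal.toReal_ofNat, Real.rpow_ofNat]
  rw [pow_two]

noncomputable def ph (k : ℕ) : H2 := ⟨fun j => b j k, b_mem k⟩

theorem ph_apply (k j : ℕ) : (ph k : ℕ → ℂ) j = b j k := rfl

theorem ph_orth : Orthonormal ℂ ph := by
  rw [orthonormal_iff_ite]
  intro k l
  rw [lp.inner_eq_tsum]
  have h := (b_orth l k).tsum_eq
  have e : (fun j => inner ℂ ((ph k : ℕ → ℂ) j) ((ph l : ℕ → ℂ) j)) = fun j => b j l * conj (b j k) := by
    funext j
    rw [RCLike.inner_apply, ph_apply, ph_apply]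
  rw [e, h]
  by_cases hkl : k = l
  · rw [if_pos hkl, if_pos hkl.symm]
  · rw [if_neg hkl, if_neg (fun h => hkl h.symm)]

noncomputable def U : H2 →ₗᵢ[ℂ] H2 := (ph_orth.orthogonalFamily).linearIsometry

theorem U_single (k : ℕ) : U (lp.single 2 k (1 : ℂ)) = ph k := by
  rw [U, OrthogonalFamily.linearIsometry_apply_single]
  simp

/-- the conjugation -/
noncomputable def CC (x : H2) : H2 := U (star x)

theorem CC_apply (x : H2) (j : ℕ) : (CC x : ℕ → ℂ) j = inner ℂ x (ph j) := by
  have h1 := OrthogonalFamily.hasSum_linearIsometry (ph_orth.orthogonalFamily) (star x)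
  have h2 := (innerSL ℂ (lp.single 2 j (1 : ℂ) : H2)).hasSum h1
  have h3 := lp.hasSum_inner (𝕜 := ℂ) x (ph j)
  have e1 : innerSL ℂ (lp.single 2 j (1 : ℂ) : H2) ((ph_orth.orthogonalFamily).linearIsometry (star x)) = (CC x : ℕ → ℂ) j := by
    rw [innerSL_apply_apply, lp.inner_single_left]
    change inner ℂ (1 : ℂ) ((CC x : ℕ → ℂ) j) = _
    rw [RCLike.inner_apply, map_one, mul_one]
  rw [e1] at h2
  refine h2.unique ?_
  have e2 : (fun i => inner ℂ ((x : ℕ → ℂ) i) ((ph j : ℕ → ℂ) i)) = fun i => conj ((x : ℕ → ℂ) i) * b j i := by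
    funext i
    rw [RCLike.inner_apply, ph_apply, b_symm i j, mul_comm]
  rw [e2] at h3
  have e3 : ∀ i, innerSL ℂ (lp.single 2 j (1 : ℂ) : H2) ((LinearIsometry.toSpanSingleton ℂ H2 (ph_orth.1 i)) ((star x : H2) i)) =
      conj ((x : ℕ → ℂ) i) * b j i := by
    intro i
    rw [innerSL_apply_apply, lp.inner_single_left, LinearIsometry.toSpanSingleton_apply, lp.coeFn_smul, Pi.smul_apply,
      ph_apply, RCLike.inner_apply, map_one, mul_one, smul_eq_mul, lp.star_apply]
    rfl
  rw [← funext e3] at h3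
  exact h3

theorem CC_add (x y : H2) : CC (x + y) = CC x + CC y := by
  rw [CC, star_add, map_add]; rfl

theorem CC_smul (c : ℂ) (x : H2) : CC (c • x) = conj c • CC x := by
  rw [CC, star_smul, map_smul]; rfl

theorem CC_norm (x : H2) : ‖CC x‖ = ‖x‖ := by
  rw [CC, LinearIsometry.norm_map, norm_star]

theorem CC_CC (x : H2) : CC (CC x) = x := by
  ext j
  rw [CC_apply, ← U_single j, CC, LinearIsometry.inner_map_map, lp.inner_single_right, lp.star_apply,
    RCLike.inner_apply, one_mul]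
  exact Complex.conj_conj _

theorem tb (i j : ℕ) : ∑ k ∈ range (i + 1), (t i k : ℂ) * a (2 * k + 1) (2 * j + 1) =
    ∑ m ∈ range (2 * j + 1 + (2 * i + 1) + 1), ((1 / 2 : ℝ) ^ m : ℝ) * (al (2 * i + 1) m : ℂ) * (al (2 * j + 1) m : ℂ) * (cc ^ m / (m.factorial : ℂ)) := by
  have h1 : ∀ k ∈ range (i + 1), (t i k : ℂ) * a (2 * k + 1) (2 * j + 1) =
      ∑ m ∈ range (2 * j + 1 + (2 * i + 1) + 1), (t i k : ℂ) * ((al (2 * j + 1) m : ℂ) * (al (2 * k + 1) m : ℂ) * (cc ^ m / (m.factorial : ℂ))) := by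
    intro k _
    rw [a_ext (2 * k + 1) (2 * j + 1) (2 * j + 1 + (2 * i + 1) + 1) (by omega), Finset.mul_sum]
  rw [Finset.sum_congr rfl h1, Finset.sum_comm]
  refine Finset.sum_congr rfl fun m _ => ?_
  have h2 := congrArg (fun x : ℝ => (x : ℂ)) (t_al i m)
  simp only [Complex.ofReal_sum, Complex.ofReal_mul] at h2
  rw [← h2, Finset.sum_mul, Finset.sum_mul]
  exact Finset.sum_congr rfl fun k _ => by ring

theorem T_ph (j : ℕ) : T (ph j) = ∑ k ∈ range (j + 1), (t j k : ℂ) • ph k := by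
  ext i
  have e1 : (T (ph j)) i = (∑ k ∈ range (i + 1), (t i k : ℂ) * a (2 * k + 1) (2 * j + 1)) / r2 := by
    rw [T_apply, Finset.sum_div]
    refine Finset.sum_congr rfl fun k _ => ?_
    rw [ph_apply, b]
    ring
  have e2 : (∑ k ∈ range (j + 1), (t j k : ℂ) • ph k : H2) i = (∑ k ∈ range (j + 1), (t j k : ℂ) * a (2 * k + 1) (2 * i + 1)) / r2 := by
    rw [lp.coeFn_sum, Finset.sum_apply, Finset.sum_div]
    refine Finset.sum_congr rfl fun k _ => ?_
    rw [lp.coeFn_smul, Pi.smul_apply, smul_eq_mul, ph_apply, b, a_symm (2 * i + 1)]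
    ring
  rw [e1, e2, tb, tb]
  congr 1
  rw [show 2 * j + 1 + (2 * i + 1) + 1 = 2 * i + 1 + (2 * j + 1) + 1 by ring]
  exact Finset.sum_congr rfl fun m _ => by ring

theorem T_CC (x : H2) : T (CC x) = CC (ContinuousLinearMap.adjoint T x) := by
  ext j
  rw [CC_apply, ContinuousLinearMap.adjoint_inner_left, T_ph, T_apply, inner_sum]
  refine Finset.sum_congr rfl fun k _ => ?_
  rw [CC_apply, inner_smul_right]

theorem CC_T (x : H2) : CC (T x) = ContinuousLinearMap.adjoint T (CC x) := by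
  have h := T_CC (CC x)
  rw [CC_CC] at h
  rw [h, CC_CC]

end Pool.Agent.V1197.CW
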