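import Pool.Agent.V1197.CW.Bd

/-! Integrals over the half circle. -/

namespace Pool.Agent.V1197.CW
open Finset MeasureTheory Set
open scoped ComplexConjugate

theorem exp_int (k : ℤ) (hk : k % 2 = 0) :
    ∫ θ in Ioo 0 Real.pi, Complex.exp ((k : ℂ) * ((θ : ℂ) * Complex.I)) = if k = 0 then (Real.pi : ℂ) else 0 := by
  rw [← integral_Ioc_eq_integral_Ioo, ← intervalIntegral.integral_of_le Real.pi_pos.le]
  split_ifs with h
  · subst h
    simp
  · have hk0 : (k : ℂ) * Complex.I ≠ 0 := mul_ne_zero (by exact_mod_cast h) Complex.I_ne_zero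
    have e : (fun θ : ℝ => Complex.exp ((k : ℂ) * ((θ : ℂ) * Complex.I))) =
        fun θ : ℝ => Complex.exp (((k : ℂ) * Complex.I) * (θ : ℂ)) := by
      funext θ; congr 1; ring
    rw [e, integral_exp_mul_complex hk0]
    obtain ⟨l, hl⟩ : ∃ l : ℤ, k = 2 * l := ⟨k / 2, by omega⟩
    have h1 : Complex.exp ((k : ℂ) * Complex.I * (Real.pi : ℂ)) = 1 := by
      rw [hl, Complex.exp_eq_one_iff]
      exact ⟨l, by push_cast; ring⟩
    have h2 : Complex.exp ((k : ℂ) * Complex.I * ((0 : ℝ) : ℂ)) = 1 := by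
      rw [Complex.ofReal_zero, mul_zero, Complex.exp_zero]
    rw [h1, h2, sub_self, zero_div]

theorem term_eq (n m : ℕ) (ρ θ : ℝ) (j k : ℕ) :
    (a j n * Zp ρ θ ^ j) * conj (a k m * Zp ρ θ ^ k) =
      (a j n * conj (a k m) * (ρ : ℂ) ^ (j + k)) * Complex.exp ((((j : ℤ) - (k : ℤ) : ℤ) : ℂ) * ((θ : ℂ) * Complex.I)) := by
  have h1 : Zp ρ θ ^ j = (ρ : ℂ) ^ j * Complex.exp ((j : ℂ) * ((θ : ℂ) * Complex.I)) := by
    rw [Zp, mul_pow, ← Complex.exp_nat_mul]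
  have h2 : conj (Zp ρ θ ^ k) = (ρ : ℂ) ^ k * Complex.exp (-((k : ℂ) * ((θ : ℂ) * Complex.I))) := by
    rw [Zp, mul_pow, ← Complex.exp_nat_mul, map_mul, map_pow, Complex.conj_ofReal, ← Complex.exp_conj]
    congr 2
    rw [map_mul, map_mul, Complex.conj_ofReal, Complex.conj_I, map_natCast]
    ring
  rw [map_mul, h1, h2]
  have h3 : Complex.exp ((((j : ℤ) - (k : ℤ) : ℤ) : ℂ) * ((θ : ℂ) * Complex.I)) =
      Complex.exp ((j : ℂ) * ((θ : ℂ) * Complex.I)) * Complex.exp (-((k : ℂ) * ((θ : ℂ) * Complex.I))) := by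
    rw [← Complex.exp_add]
    congr 1
    push_cast
    ring
  rw [h3, pow_add]
  ring

theorem In_hasSum (n m : ℕ) (hnm : (n + m) % 2 = 0) (ρ : ℝ) (h0 : 0 ≤ ρ) (h1 : ρ < 1) :
    HasSum (fun j : ℕ => (Real.pi : ℂ) * (a j n * conj (a j m) * (ρ : ℂ) ^ (j + j))) (In n m ρ) := by
  have hz : ∀ θ, ‖Zp ρ θ‖ < 1 := fun θ => by rw [Zp_norm ρ θ h0]; exact h1
  have hzρ : ‖(ρ : ℂ)‖ < 1 := by rw [Complex.norm_real, Real.norm_of_nonneg h0]; exact h1
  have sn := (a_hasSum n (ρ : ℂ) hzρ).1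
  have sm := (a_hasSum m (ρ : ℂ) hzρ).1
  have key : HasSum (fun x : ℕ × ℕ => ∫ θ in Ioo 0 Real.pi, (a x.1 n * Zp ρ θ ^ x.1) * conj (a x.2 m * Zp ρ θ ^ x.2))
      (In n m ρ) := by
    unfold In
    refine hasSum_integral_of_dominated_convergence
      (fun x _ => ‖a x.1 n * (ρ : ℂ) ^ x.1‖ * ‖a x.2 m * (ρ : ℂ) ^ x.2‖) ?_ ?_ ?_ ?_ ?_
    · intro x
      refine Continuous.aestronglyMeasurable ?_
      unfold Zp
      fun_prop
    · intro x
      refine Filter.Eventually.of_forall fun θ => ?_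
      rw [norm_mul, RCLike.norm_conj, norm_mul, norm_mul, norm_mul, norm_mul, norm_pow, norm_pow, norm_pow, norm_pow,
        Zp_norm ρ θ h0, Complex.norm_real, Real.norm_of_nonneg h0]
    · exact Filter.Eventually.of_forall fun θ =>
        Summable.mul_of_nonneg sn sm (fun _ => norm_nonneg _) (fun _ => norm_nonneg _)
    · exact integrable_const _
    · refine Filter.Eventually.of_forall fun θ => ?_
      obtain ⟨s1, H1⟩ := a_hasSum n (Zp ρ θ) (hz θ)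
      obtain ⟨s2, H2⟩ := a_hasSum m (Zp ρ θ) (hz θ)
      have H2' : HasSum (fun k => conj (a k m * Zp ρ θ ^ k)) (conj (g m (cc * Lg (Zp ρ θ)))) :=
        Complex.conjCLE.toContinuousLinearMap.hasSum H2
      have s2' : Summable fun k => ‖conj (a k m * Zp ρ θ ^ k)‖ := by
        refine s2.congr fun k => ?_
        rw [RCLike.norm_conj]
      have s3 : Summable fun x : ℕ × ℕ => (a x.1 n * Zp ρ θ ^ x.1) * conj (a x.2 m * Zp ρ θ ^ x.2) :=
        summable_mul_of_summable_norm (f := fun j => a j n * Zp ρ θ ^ j)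
          (g := fun k => conj (a k m * Zp ρ θ ^ k)) s1 s2'
      have hF : Fn n m ρ θ = g n (cc * Lg (Zp ρ θ)) * conj (g m (cc * Lg (Zp ρ θ))) := by
        rw [Fn, Xp]
      rw [hF]
      exact HasSum.mul (f := fun j => a j n * Zp ρ θ ^ j) (g := fun k => conj (a k m * Zp ρ θ ^ k)) H1 H2' s3
  have e : (fun x : ℕ × ℕ => ∫ θ in Ioo 0 Real.pi, (a x.1 n * Zp ρ θ ^ x.1) * conj (a x.2 m * Zp ρ θ ^ x.2)) =
      fun x : ℕ × ℕ => if x.1 = x.2 then (Real.pi : ℂ) * (a x.1 n * conj (a x.2 m) * (ρ : ℂ) ^ (x.1 + x.2)) else 0 := by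
    funext x
    obtain ⟨j, k⟩ := x
    simp only [term_eq]
    rw [integral_const_mul]
    by_cases hj : (j + n) % 2 = 1
    · rw [a_parity j n hj]
      simp
    · by_cases hk : (k + m) % 2 = 1
      · rw [a_parity k m hk]
        simp
      · rw [exp_int _ (by omega)]
        by_cases hjk : j = k
        · rw [if_pos (by omega), if_pos hjk]
          ring
        · rw [if_neg (by omega), if_neg hjk]
          ring
  rw [e] at key
  have hinj : Function.Injective (fun j : ℕ => (j, j)) := fun x y h => (Prod.mk.inj h).1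
  have := (hinj.hasSum_iff (f := fun x : ℕ × ℕ => if x.1 = x.2 then (Real.pi : ℂ) * (a x.1 n * conj (a x.2 m) * (ρ : ℂ) ^ (x.1 + x.2)) else 0)
    (a := In n m ρ) (by
      rintro ⟨j, k⟩ hx
      refine if_neg ?_
      intro hjk
      exact hx ⟨j, by simp only at hjk; rw [hjk]⟩)).2 key
  have e2 : ((fun x : ℕ × ℕ => if x.1 = x.2 then (Real.pi : ℂ) * (a x.1 n * conj (a x.2 m) * (ρ : ℂ) ^ (x.1 + x.2)) else 0) ∘ fun j : ℕ => (j, j)) =
      fun j : ℕ => (Real.pi : ℂ) * (a j n * conj (a j m) * (ρ : ℂ) ^ (j + j)) := by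
    funext j
    simp
  rw [e2] at this
  exact this

/-- structure of the boundary function -/
theorem Xp_one (θ : ℝ) (hθ : θ ∈ Ioo 0 Real.pi) :
    Xp 1 θ = ((-(1 / 2) : ℝ) : ℂ) + (((Real.log (2 * Real.cos (θ / 2)) - Real.log (2 * Real.sin (θ / 2))) / Real.pi : ℝ) : ℂ) * Complex.I := by
  have hpi := Real.pi_pos
  have hc : 0 < Real.cos (θ / 2) := Real.cos_pos_of_mem_Ioo ⟨by linarith [hθ.1], by linarith [hθ.2]⟩
  have hs : 0 < Real.sin (θ / 2) := Real.sin_pos_of_pos_of_lt_pi (by linarith [hθ.1]) (by linarith [hθ.2])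
  have hcs := Real.sin_sq_add_cos_sq (θ / 2)
  have he : Complex.exp ((θ : ℂ) * Complex.I) = (((Real.cos (θ / 2) : ℝ) : ℂ) + ((Real.sin (θ / 2) : ℝ) : ℂ) * Complex.I) ^ 2 := by
    have : ((θ : ℝ) : ℂ) * Complex.I = ((2 : ℕ) : ℂ) * (((θ / 2 : ℝ) : ℂ) * Complex.I) := by push_cast; ring
    rw [this, Complex.exp_nat_mul, Complex.exp_mul_I, ← Complex.ofReal_cos, ← Complex.ofReal_sin]
  have hcs' : ((Real.sin (θ / 2) : ℝ) : ℂ) ^ 2 + ((Real.cos (θ / 2) : ℝ) : ℂ) ^ 2 = 1 := by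
    rw [← Complex.ofReal_pow, ← Complex.ofReal_pow, ← Complex.ofReal_add, hcs, Complex.ofReal_one]
  have h1 : 1 + Zp 1 θ = ((2 * Real.cos (θ / 2) : ℝ) : ℂ) * Complex.exp (((θ / 2 : ℝ) : ℂ) * Complex.I) := by
    rw [Zp, he, Complex.exp_mul_I, ← Complex.ofReal_cos, ← Complex.ofReal_sin]
    push_cast at hcs' ⊢
    linear_combination -hcs' - (Complex.sin (θ / 2)) ^ 2 * (-1 - Complex.I_sq)
  have h2 : 1 - Zp 1 θ = ((2 * Real.sin (θ / 2) : ℝ) : ℂ) * Complex.exp (((θ / 2 - Real.pi / 2 : ℝ) : ℂ) * Complex.I) := by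
    have e1 : Complex.exp (((θ / 2 - Real.pi / 2 : ℝ) : ℂ) * Complex.I) = ((Real.sin (θ / 2) : ℝ) : ℂ) - ((Real.cos (θ / 2) : ℝ) : ℂ) * Complex.I := by
      rw [Complex.exp_mul_I, ← Complex.ofReal_cos, ← Complex.ofReal_sin, Real.cos_sub_pi_div_two, Real.sin_sub_pi_div_two]
      push_cast
      ring
    rw [Zp, he, e1]
    push_cast at hcs' ⊢
    linear_combination -hcs' + (Complex.sin (θ / 2)) ^ 2 * (-1 - Complex.I_sq)
  have l1 : Complex.log (1 + Zp 1 θ) = ((Real.log (2 * Real.cos (θ / 2)) : ℝ) : ℂ) + ((θ / 2 : ℝ) : ℂ) * Complex.I := by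
    rw [h1, Complex.log_ofReal_mul (by positivity) (Complex.exp_ne_zero _), Complex.log_exp]
    · rw [Complex.im_ofReal_mul, Complex.I_im]; linarith [hθ.1]
    · rw [Complex.im_ofReal_mul, Complex.I_im]; linarith [hθ.2]
  have l2 : Complex.log (1 - Zp 1 θ) = ((Real.log (2 * Real.sin (θ / 2)) : ℝ) : ℂ) + ((θ / 2 - Real.pi / 2 : ℝ) : ℂ) * Complex.I := by
    rw [h2, Complex.log_ofReal_mul (by positivity) (Complex.exp_ne_zero _), Complex.log_exp]
    · rw [Complex.im_ofReal_mul, Complex.I_im]; linarith [hθ.1]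
    · rw [Complex.im_ofReal_mul, Complex.I_im]; linarith [hθ.2]
  rw [Xp, Lg, l1, l2, cc]
  have hpc : (Real.pi : ℂ) ≠ 0 := by exact_mod_cast hpi.ne'
  push_cast
  field_simp
  linear_combination (Real.pi : ℂ) * Complex.I_sq

theorem Xp_conj (θ : ℝ) (hθ : θ ∈ Ioo 0 Real.pi) : Xp 1 θ + conj (Xp 1 θ) = -1 := by
  rw [Xp_one θ hθ, map_add, map_mul, Complex.conj_ofReal, Complex.conj_ofReal, Complex.conj_I]
  push_cast
  ring

theorem Xp_refl (θ : ℝ) (hθ : θ ∈ Ioo 0 Real.pi) : Xp 1 (Real.pi - θ) = -(Xp 1 θ + 1) := by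
  rw [Xp_one θ hθ, Xp_one (Real.pi - θ) ⟨by linarith [hθ.2], by linarith [hθ.1]⟩]
  have e1 : Real.cos ((Real.pi - θ) / 2) = Real.sin (θ / 2) := by
    rw [show (Real.pi - θ) / 2 = Real.pi / 2 - θ / 2 by ring, Real.cos_pi_div_two_sub]
  have e2 : Real.sin ((Real.pi - θ) / 2) = Real.cos (θ / 2) := by
    rw [show (Real.pi - θ) / 2 = Real.pi / 2 - θ / 2 by ring, Real.sin_pi_div_two_sub]
  rw [e1, e2]
  push_cast
  ring

end Pool.Agent.V1197.CW
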