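import Pool.Agent.V1197.CW.Int

/-! Values of the boundary inner products. -/

namespace Pool.Agent.V1197.CW
open Finset MeasureTheory Set
open scoped ComplexConjugate

theorem lin5 (c1 c2 c3 c4 c5 : ℂ) (f1 f2 f3 f4 f5 : ℝ → ℂ)
    (h1 : IntegrableOn f1 (Ioo 0 Real.pi)) (h2 : IntegrableOn f2 (Ioo 0 Real.pi))
    (h3 : IntegrableOn f3 (Ioo 0 Real.pi)) (h4 : IntegrableOn f4 (Ioo 0 Real.pi))
    (h5 : IntegrableOn f5 (Ioo 0 Real.pi))
    (h : ∀ θ ∈ Ioo 0 Real.pi, c1 * f1 θ + c2 * f2 θ + c3 * f3 θ + c4 * f4 θ + c5 * f5 θ = 0) :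
    c1 * (∫ θ in Ioo 0 Real.pi, f1 θ) + c2 * (∫ θ in Ioo 0 Real.pi, f2 θ) + c3 * (∫ θ in Ioo 0 Real.pi, f3 θ) +
      c4 * (∫ θ in Ioo 0 Real.pi, f4 θ) + c5 * (∫ θ in Ioo 0 Real.pi, f5 θ) = 0 := by
  have e : ∫ θ in Ioo 0 Real.pi, (c1 * f1 θ + c2 * f2 θ + c3 * f3 θ + c4 * f4 θ + c5 * f5 θ) = 0 := by
    rw [setIntegral_congr_fun measurableSet_Ioo (g := fun _ => (0 : ℂ)) h]
    simp
  have i1 := h1.const_mul c1
  have i2 := h2.const_mul c2
  have i3 := h3.const_mul c3
  have i4 := h4.const_mul c4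
  have i5 := h5.const_mul c5
  have s2 : Integrable (fun θ => c1 * f1 θ + c2 * f2 θ) (volume.restrict (Ioo 0 Real.pi)) := i1.add i2
  have s3 : Integrable (fun θ => c1 * f1 θ + c2 * f2 θ + c3 * f3 θ) (volume.restrict (Ioo 0 Real.pi)) := s2.add i3
  have s4 : Integrable (fun θ => c1 * f1 θ + c2 * f2 θ + c3 * f3 θ + c4 * f4 θ) (volume.restrict (Ioo 0 Real.pi)) := s3.add i4
  rw [integral_add s4 i5, integral_add s3 i4,
    integral_add s2 i3, integral_add i1 i2, integral_const_mul, integral_const_mul, integral_const_mul,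
    integral_const_mul, integral_const_mul] at e
  exact e

noncomputable def J (n m : ℕ) : ℂ := ∫ θ in Ioo 0 Real.pi, Fn n m 1 θ

theorem Jint (n m : ℕ) : IntegrableOn (Fn n m 1) (Ioo 0 Real.pi) := Fn_integrable n m 1 (by norm_num) (by norm_num)

theorem recA (k l : ℕ) : ((k : ℂ) + 2) * J (k + 2) (l + 1) + (-(k : ℂ)) * J k (l + 1) + ((l : ℂ) + 2) * J (k + 1) (l + 2) +
    (-(l : ℂ)) * J (k + 1) l + 2 * J (k + 1) (l + 1) = 0 := by
  refine lin5 _ _ _ _ _ _ _ _ _ _ (Jint _ _) (Jint _ _) (Jint _ _) (Jint _ _) (Jint _ _) fun θ hθ => ?_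
  have h1 := g_rec k (Xp 1 θ)
  have h2 := congrArg conj (g_rec l (Xp 1 θ))
  have h3 := Xp_conj θ hθ
  simp only [map_mul, map_add, map_natCast, map_ofNat] at h2
  simp only [Fn]
  linear_combination (conj (g (l + 1) (Xp 1 θ))) * h1 + (g (k + 1) (Xp 1 θ)) * h2 +
    2 * (g (k + 1) (Xp 1 θ)) * (conj (g (l + 1) (Xp 1 θ))) * h3

theorem recB (k : ℕ) : ((k : ℂ) + 2) * J (k + 2) 0 + (-(k : ℂ)) * J k 0 + 1 * J (k + 1) 1 +
    0 * J 0 0 + 2 * J (k + 1) 0 = 0 := by
  refine lin5 _ _ _ _ _ _ _ _ _ _ (Jint _ _) (Jint _ _) (Jint _ _) (Jint _ _) (Jint _ _) fun θ hθ => ?_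
  have h1 := g_rec k (Xp 1 θ)
  have h3 := Xp_conj θ hθ
  simp only [Fn]
  rw [g_zero, g_one]
  simp only [map_mul, map_one, map_ofNat]
  linear_combination h1 + 2 * (g (k + 1) (Xp 1 θ)) * h3

theorem recC (l : ℕ) : 1 * J 1 (l + 1) + 0 * J 0 0 + ((l : ℂ) + 2) * J 0 (l + 2) +
    (-(l : ℂ)) * J 0 l + 2 * J 0 (l + 1) = 0 := by
  refine lin5 _ _ _ _ _ _ _ _ _ _ (Jint _ _) (Jint _ _) (Jint _ _) (Jint _ _) (Jint _ _) fun θ hθ => ?_
  have h2 := congrArg conj (g_rec l (Xp 1 θ))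
  have h3 := Xp_conj θ hθ
  simp only [map_mul, map_add, map_natCast, map_ofNat] at h2
  simp only [Fn]
  rw [g_zero, g_one]
  linear_combination h2 + 2 * (conj (g (l + 1) (Xp 1 θ))) * h3

theorem recD : 1 * J 1 0 + 1 * J 0 1 + 0 * J 0 0 + 0 * J 0 0 + 2 * J 0 0 = 0 := by
  refine lin5 _ _ _ _ _ _ _ _ _ _ (Jint _ _) (Jint _ _) (Jint _ _) (Jint _ _) (Jint _ _) fun θ hθ => ?_
  have h3 := Xp_conj θ hθ
  simp only [Fn]
  rw [g_zero, g_one]
  simp only [map_mul, map_one, map_ofNat]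
  linear_combination 2 * h3

theorem a_zero_right (j : ℕ) : a j 0 = if j = 0 then 1 else 0 := by
  rw [a]
  simp only [zero_add, Finset.sum_range_one]
  rw [al_zero_right 0, if_pos rfl, al_zero_right j]
  split_ifs with h <;> simp

theorem J_even (n : ℕ) (hn : n % 2 = 0) : J n 0 = (Real.pi : ℂ) * (if n = 0 then 1 else 0) := by
  have h1 : ∀ ρ : ℝ, 0 ≤ ρ → ρ < 1 → In n 0 ρ = (Real.pi : ℂ) * (if n = 0 then 1 else 0) := by
    intro ρ h0 hρ
    have h := In_hasSum n 0 (by omega) ρ h0 hρ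
    refine h.unique ?_
    have e : (Real.pi : ℂ) * (if n = 0 then 1 else 0) = (Real.pi : ℂ) * (a 0 n * conj (a 0 0) * (ρ : ℂ) ^ (0 + 0)) := by
      rw [a_symm 0 n, a_zero_right, a_zero_right]
      simp
    rw [e]
    refine hasSum_single 0 fun j hj => ?_
    rw [a_zero_right j, if_neg hj]
    simp
  have h2 := In_tendsto n 0
  have h3 : Filter.Tendsto (In n 0) (nhdsWithin 1 (Iio 1)) (nhds ((Real.pi : ℂ) * (if n = 0 then 1 else 0))) := by
    refine tendsto_const_nhds.congr' ?_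
    have e1 : ∀ᶠ ρ in nhdsWithin (1 : ℝ) (Iio 1), ρ < 1 := eventually_nhdsWithin_of_forall fun x hx => hx
    have e2 : ∀ᶠ ρ in nhdsWithin (1 : ℝ) (Iio 1), 0 < ρ :=
      (eventually_gt_nhds (by norm_num : (0 : ℝ) < 1)).filter_mono nhdsWithin_le_nhds
    filter_upwards [e1, e2] with ρ x y
    exact (h1 ρ y.le x).symm
  exact tendsto_nhds_unique h2 h3

theorem refl_int (f : ℝ → ℂ) : ∫ θ in Ioo 0 Real.pi, f (Real.pi - θ) = ∫ θ in Ioo 0 Real.pi, f θ := by
  rw [← integral_Ioc_eq_integral_Ioo, ← intervalIntegral.integral_of_le Real.pi_pos.le,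
    ← integral_Ioc_eq_integral_Ioo, ← intervalIntegral.integral_of_le Real.pi_pos.le,
    intervalIntegral.integral_comp_sub_left (fun x => f x)]
  simp

theorem refl_integrable (f : ℝ → ℂ) (hf : IntegrableOn f (Ioo 0 Real.pi)) :
    IntegrableOn (fun θ => f (Real.pi - θ)) (Ioo 0 Real.pi) := by
  have h1 : IntervalIntegrable f volume 0 Real.pi := by
    rw [intervalIntegrable_iff_integrableOn_Ioo_of_le Real.pi_pos.le]
    exact hf
  have h2 := (h1.comp_sub_left Real.pi).symm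
  rw [sub_self, sub_zero] at h2
  rw [intervalIntegrable_iff_integrableOn_Ioo_of_le Real.pi_pos.le] at h2
  exact h2

theorem J_odd (n : ℕ) (hn : n % 2 = 0) : J (n + 1) 0 = - J n 0 := by
  have hr1 := refl_int (Fn (n + 1) 0 1)
  have hr2 := refl_int (Fn n 0 1)
  have h := lin5 1 1 1 1 0 (fun θ => Fn (n + 1) 0 1 (Real.pi - θ)) (fun θ => Fn n 0 1 (Real.pi - θ))
    (Fn (n + 1) 0 1) (Fn n 0 1) (Fn 0 0 1) (refl_integrable _ (Jint _ _)) (refl_integrable _ (Jint _ _))
    (Jint _ _) (Jint _ _) (Jint _ _) (by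
      intro θ hθ
      simp only [Fn]
      rw [g_zero, g_zero, Xp_refl θ hθ, g_neg, g_neg]
      have h1 := (g_SR n (Xp 1 θ)).1
      have e1 : (-1 : ℂ) ^ n = 1 := (Nat.even_iff.2 hn).neg_one_pow
      rw [pow_succ, e1]
      simp only [map_one]
      linear_combination -h1)
  rw [hr1, hr2] at h
  have hJ1 : J (n + 1) 0 = ∫ θ in Ioo 0 Real.pi, Fn (n + 1) 0 1 θ := rfl
  have hJ2 : J n 0 = ∫ θ in Ioo 0 Real.pi, Fn n 0 1 θ := rfl
  rw [← hJ1, ← hJ2] at h
  linear_combination (1 / 2) * h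

noncomputable def v (n m : ℕ) : ℂ := if n = m then (if n = 0 then 1 else 2) else if n = m + 1 ∨ m = n + 1 then -1 else 0

theorem v_far (n m : ℕ) (h1 : n ≠ m) (h2 : n ≠ m + 1) (h3 : m ≠ n + 1) : v n m = 0 := by
  rw [v, if_neg h1, if_neg (by tauto)]

theorem v_dn (m : ℕ) : v (m + 1) m = -1 := by
  rw [v, if_neg (by omega), if_pos (Or.inl rfl)]

theorem v_up (m : ℕ) : v m (m + 1) = -1 := by
  rw [v, if_neg (by omega), if_pos (Or.inr rfl)]

theorem v_diag (m : ℕ) : v (m + 1) (m + 1) = 2 := by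
  rw [v, if_pos rfl, if_neg (by omega)]

theorem v_zz : v 0 0 = 1 := by
  rw [v, if_pos rfl, if_pos rfl]

theorem vA (k l : ℕ) : ((k : ℂ) + 2) * v (k + 2) (l + 1) + (-(k : ℂ)) * v k (l + 1) + ((l : ℂ) + 2) * v (k + 1) (l + 2) +
    (-(l : ℂ)) * v (k + 1) l + 2 * v (k + 1) (l + 1) = 0 := by
  rcases lt_trichotomy k l with h | h | h
  · obtain ⟨d, rfl⟩ : ∃ d, l = k + 1 + d := ⟨l - k - 1, by omega⟩
    rcases d with _ | _ | d
    · have e1 : v (k + 2) (k + 1 + 0 + 1) = 2 := v_diag (k + 1)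
      have e2 : v k (k + 1 + 0 + 1) = 0 := v_far _ _ (by omega) (by omega) (by omega)
      have e3 : v (k + 1) (k + 1 + 0 + 2) = 0 := v_far _ _ (by omega) (by omega) (by omega)
      have e4 : v (k + 1) (k + 1 + 0) = 2 := v_diag k
      have e5 : v (k + 1) (k + 1 + 0 + 1) = -1 := v_up (k + 1)
      rw [e1, e2, e3, e4, e5]
      push_cast
      ring
    · have e1 : v (k + 2) (k + 1 + (0 + 1) + 1) = -1 := v_up (k + 2)
      have e2 : v k (k + 1 + (0 + 1) + 1) = 0 := v_far _ _ (by omega) (by omega) (by omega)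
      have e3 : v (k + 1) (k + 1 + (0 + 1) + 2) = 0 := v_far _ _ (by omega) (by omega) (by omega)
      have e4 : v (k + 1) (k + 1 + (0 + 1)) = -1 := v_up (k + 1)
      have e5 : v (k + 1) (k + 1 + (0 + 1) + 1) = 0 := v_far _ _ (by omega) (by omega) (by omega)
      rw [e1, e2, e3, e4, e5]
      push_cast
      ring
    · rw [v_far (k + 2) _ (by omega) (by omega) (by omega), v_far k _ (by omega) (by omega) (by omega),
        v_far (k + 1) (k + 1 + (d + 1 + 1) + 2) (by omega) (by omega) (by omega),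
        v_far (k + 1) (k + 1 + (d + 1 + 1)) (by omega) (by omega) (by omega),
        v_far (k + 1) (k + 1 + (d + 1 + 1) + 1) (by omega) (by omega) (by omega)]
      ring
  · subst h
    have e1 : v (k + 2) (k + 1) = -1 := v_dn (k + 1)
    have e3 : v (k + 1) (k + 2) = -1 := v_up (k + 1)
    rw [e1, v_up k, e3, v_dn k, v_diag]
    ring
  · obtain ⟨d, rfl⟩ : ∃ d, k = l + 1 + d := ⟨k - l - 1, by omega⟩
    rcases d with _ | _ | d
    · have e1 : v (l + 1 + 0 + 2) (l + 1) = 0 := v_far _ _ (by omega) (by omega) (by omega)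
      have e2 : v (l + 1 + 0) (l + 1) = 2 := v_diag l
      have e3 : v (l + 1 + 0 + 1) (l + 2) = 2 := v_diag (l + 1)
      have e4 : v (l + 1 + 0 + 1) l = 0 := v_far _ _ (by omega) (by omega) (by omega)
      have e5 : v (l + 1 + 0 + 1) (l + 1) = -1 := v_dn (l + 1)
      rw [e1, e2, e3, e4, e5]
      push_cast
      ring
    · have e1 : v (l + 1 + (0 + 1) + 2) (l + 1) = 0 := v_far _ _ (by omega) (by omega) (by omega)
      have e2 : v (l + 1 + (0 + 1)) (l + 1) = -1 := v_dn (l + 1)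
      have e3 : v (l + 1 + (0 + 1) + 1) (l + 2) = -1 := v_dn (l + 2)
      have e4 : v (l + 1 + (0 + 1) + 1) l = 0 := v_far _ _ (by omega) (by omega) (by omega)
      have e5 : v (l + 1 + (0 + 1) + 1) (l + 1) = 0 := v_far _ _ (by omega) (by omega) (by omega)
      rw [e1, e2, e3, e4, e5]
      push_cast
      ring
    · rw [v_far (l + 1 + (d + 1 + 1) + 2) _ (by omega) (by omega) (by omega),
        v_far (l + 1 + (d + 1 + 1)) _ (by omega) (by omega) (by omega),
        v_far (l + 1 + (d + 1 + 1) + 1) (l + 2) (by omega) (by omega) (by omega),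
        v_far (l + 1 + (d + 1 + 1) + 1) l (by omega) (by omega) (by omega),
        v_far (l + 1 + (d + 1 + 1) + 1) (l + 1) (by omega) (by omega) (by omega)]
      ring

theorem J_zero (n : ℕ) : J n 0 = (Real.pi : ℂ) * v n 0 := by
  rcases Nat.even_or_odd n with h | h
  · have h' := Nat.even_iff.1 h
    rw [J_even n h']
    congr 1
    by_cases h0 : n = 0
    · subst h0; rw [if_pos rfl, v_zz]
    · rw [if_neg h0, v_far _ _ h0 (by omega) (by omega)]
  · obtain ⟨k, rfl⟩ : ∃ k, n = k + 1 := ⟨n - 1, by have := Nat.odd_iff.1 h; omega⟩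
    have hk : k % 2 = 0 := by have := Nat.odd_iff.1 h; omega
    rw [J_odd k hk, J_even k hk]
    by_cases h0 : k = 0
    · subst h0; rw [if_pos rfl, v_dn]; ring
    · rw [if_neg h0, v_far _ _ (by omega) (by omega) (by omega)]; ring

theorem J_eq (m : ℕ) : ∀ n, J n m = (Real.pi : ℂ) * v n m := by
  induction m using Nat.strong_induction_on with
  | _ m ih =>
    rcases m with _ | _ | l
    · exact J_zero
    · intro n
      rcases n with _ | k
      · have h := recD
        rw [J_zero, J_zero, v_dn, v_zz] at h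
        rw [zero_add, v_up 0]
        linear_combination h
      · have h := recB k
        rw [J_zero, J_zero, J_zero, J_zero] at h
        rw [zero_add]
        rcases k with _ | _ | k
        · have e1 : v (0 + 2) 0 = 0 := v_far _ _ (by omega) (by omega) (by omega)
          rw [e1, v_dn, v_zz] at h
          rw [v_diag 0]
          push_cast at h
          linear_combination h
        · have e1 : v (0 + 1 + 2) 0 = 0 := v_far _ _ (by omega) (by omega) (by omega)
          have e2 : v (0 + 1 + 1) 0 = 0 := v_far _ _ (by omega) (by omega) (by omega)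
          have e3 : v (0 + 1 + 1) 1 = -1 := v_dn 1
          rw [e1, v_dn, v_zz, e2] at h
          rw [e3]
          push_cast at h
          linear_combination h
        · rw [v_far (k + 1 + 1 + 2) 0 (by omega) (by omega) (by omega), v_far (k + 1 + 1) 0 (by omega) (by omega) (by omega),
            v_far (k + 1 + 1 + 1) 0 (by omega) (by omega) (by omega)] at h
          rw [v_far (k + 1 + 1 + 1) 1 (by omega) (by omega) (by omega)]
          linear_combination h
    · intro n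
      have q0 := ih l (by omega)
      have q1 := ih (l + 1) (by omega)
      have hl : ((l : ℂ) + 2) ≠ 0 := by
        have : ((l + 2 : ℕ) : ℂ) ≠ 0 := Nat.cast_ne_zero.2 (by omega)
        push_cast at this
        exact this
      rcases n with _ | k
      · have h := recC l
        rw [q1, q1, q0, q0 |> fun _ => J_zero 0] at h
        have hv : 1 * v 1 (l + 1) + ((l : ℂ) + 2) * v 0 (l + 2) + (-(l : ℂ)) * v 0 l + 2 * v 0 (l + 1) = 0 := by
          rcases l with _ | _ | l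
          · have e1 : v 0 (0 + 2) = 0 := v_far _ _ (by omega) (by omega) (by omega)
            have e2 : v 1 (0 + 1) = 2 := v_diag 0
            have e3 : v 0 (0 + 1) = -1 := v_up 0
            rw [e1, e2, e3]
            push_cast
            ring
          · have e1 : v 0 (0 + 1 + 2) = 0 := v_far _ _ (by omega) (by omega) (by omega)
            have e2 : v 1 (0 + 1 + 1) = -1 := v_up 1
            have e3 : v 0 (0 + 1) = -1 := v_up 0
            have e4 : v 0 (0 + 1 + 1) = 0 := v_far _ _ (by omega) (by omega) (by omega)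
            rw [e1, e2, e3, e4]
            push_cast
            ring
          · rw [v_far 1 _ (by omega) (by omega) (by omega), v_far 0 (l + 1 + 1 + 2) (by omega) (by omega) (by omega),
              v_far 0 (l + 1 + 1) (by omega) (by omega) (by omega), v_far 0 (l + 1 + 1 + 1) (by omega) (by omega) (by omega)]
            ring
        have : ((l : ℂ) + 2) * (J 0 (l + 1 + 1) - (Real.pi : ℂ) * v 0 (l + 1 + 1)) = 0 := by
          have hv' : 1 * v 1 (l + 1) + ((l : ℂ) + 2) * v 0 (l + 1 + 1) + (-(l : ℂ)) * v 0 l + 2 * v 0 (l + 1) = 0 := hv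
          have h' : 1 * ((Real.pi : ℂ) * v 1 (l + 1)) + 0 * ((Real.pi : ℂ) * v 0 0) + ((l : ℂ) + 2) * J 0 (l + 1 + 1) +
            (-(l : ℂ)) * ((Real.pi : ℂ) * v 0 l) + 2 * ((Real.pi : ℂ) * v 0 (l + 1)) = 0 := h
          linear_combination h' - (Real.pi : ℂ) * hv'
        exact sub_eq_zero.1 ((mul_eq_zero.1 this).resolve_left hl)
      · have h := recA k l
        rw [q1, q1, q1, q0] at h
        have hv := vA k l
        have : ((l : ℂ) + 2) * (J (k + 1) (l + 1 + 1) - (Real.pi : ℂ) * v (k + 1) (l + 1 + 1)) = 0 := by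
          have hv' : ((k : ℂ) + 2) * v (k + 2) (l + 1) + (-(k : ℂ)) * v k (l + 1) + ((l : ℂ) + 2) * v (k + 1) (l + 1 + 1) +
            (-(l : ℂ)) * v (k + 1) l + 2 * v (k + 1) (l + 1) = 0 := hv
          have h' : ((k : ℂ) + 2) * ((Real.pi : ℂ) * v (k + 2) (l + 1)) + (-(k : ℂ)) * ((Real.pi : ℂ) * v k (l + 1)) + ((l : ℂ) + 2) * J (k + 1) (l + 1 + 1) +
            (-(l : ℂ)) * ((Real.pi : ℂ) * v (k + 1) l) + 2 * ((Real.pi : ℂ) * v (k + 1) (l + 1)) = 0 := h
          linear_combination h' - (Real.pi : ℂ) * hv'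
        exact sub_eq_zero.1 ((mul_eq_zero.1 this).resolve_left hl)

theorem ev_range : ∀ᶠ ρ in nhdsWithin (1 : ℝ) (Iio 1), 0 ≤ ρ ∧ ρ < 1 := by
  have e1 : ∀ᶠ ρ in nhdsWithin (1 : ℝ) (Iio 1), ρ < 1 := eventually_nhdsWithin_of_forall fun x hx => hx
  have e2 : ∀ᶠ ρ in nhdsWithin (1 : ℝ) (Iio 1), 0 < ρ :=
    (eventually_gt_nhds (by norm_num : (0 : ℝ) < 1)).filter_mono nhdsWithin_le_nhds
  filter_upwards [e1, e2] with ρ x y
  exact ⟨y.le, x⟩

theorem a_sq_summable (n : ℕ) : Summable fun j => ‖a j n‖ ^ 2 := by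
  refine summable_of_sum_range_le (c := (J n n).re / Real.pi) (fun j => by positivity) fun N => ?_
  rw [le_div_iff₀ Real.pi_pos]
  have h1 : ∀ ρ : ℝ, 0 ≤ ρ → ρ < 1 → ∑ j ∈ range N, Real.pi * (‖a j n‖ ^ 2 * ρ ^ (j + j)) ≤ (In n n ρ).re := by
    intro ρ h0 hρ
    have h := In_hasSum n n (by omega) ρ h0 hρ
    have h2 := Complex.reCLM.hasSum h
    have e : (fun j : ℕ => Complex.reCLM ((Real.pi : ℂ) * (a j n * conj (a j n) * (ρ : ℂ) ^ (j + j)))) =
        fun j : ℕ => Real.pi * (‖a j n‖ ^ 2 * ρ ^ (j + j)) := by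
      funext j
      rw [Complex.mul_conj, ← Complex.ofReal_pow, ← Complex.ofReal_mul, ← Complex.ofReal_mul, Complex.reCLM_apply,
        Complex.ofReal_re, Complex.normSq_eq_norm_sq]
    have h2' : HasSum (fun j : ℕ => Real.pi * (‖a j n‖ ^ 2 * ρ ^ (j + j))) (In n n ρ).re := by
      rw [← e]; exact h2
    refine sum_le_hasSum _ (fun j _ => ?_) h2'
    have := Real.pi_pos
    positivity
  have h3 : Filter.Tendsto (fun ρ : ℝ => ∑ j ∈ range N, Real.pi * (‖a j n‖ ^ 2 * ρ ^ (j + j))) (nhdsWithin 1 (Iio 1))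
      (nhds (∑ j ∈ range N, Real.pi * (‖a j n‖ ^ 2 * (1 : ℝ) ^ (j + j)))) := by
    have hc : Continuous (fun ρ : ℝ => ∑ j ∈ range N, Real.pi * (‖a j n‖ ^ 2 * ρ ^ (j + j))) := by fun_prop
    exact (hc.tendsto 1).mono_left nhdsWithin_le_nhds
  have h4 : Filter.Tendsto (fun ρ : ℝ => (In n n ρ).re) (nhdsWithin 1 (Iio 1)) (nhds (J n n).re) :=
    (Complex.continuous_re.tendsto _).comp (In_tendsto n n)
  have h5 := le_of_tendsto_of_tendsto h3 h4 (by
    filter_upwards [ev_range] with ρ hρ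
    exact h1 ρ hρ.1 hρ.2)
  refine le_trans (le_of_eq ?_) h5
  rw [Finset.sum_mul]
  refine Finset.sum_congr rfl fun j _ => ?_
  rw [one_pow]; ring

theorem a_orth (n m : ℕ) (hnm : (n + m) % 2 = 0) : HasSum (fun j => a j n * conj (a j m)) (v n m) := by
  have hs : Summable fun j => ‖a j n * conj (a j m)‖ := by
    refine Summable.of_nonneg_of_le (fun _ => norm_nonneg _) (fun j => ?_)
      ((a_sq_summable n).add (a_sq_summable m))
    rw [norm_mul, RCLike.norm_conj]
    nlinarith [sq_nonneg (‖a j n‖ - ‖a j m‖), norm_nonneg (a j n), norm_nonneg (a j m), sq_nonneg (‖a j n‖), sq_nonneg (‖a j m‖)]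
  have h1 : Filter.Tendsto (fun ρ : ℝ => ∑' j : ℕ, (Real.pi : ℂ) * (a j n * conj (a j m) * (ρ : ℂ) ^ (j + j)))
      (nhdsWithin 1 (Iio 1)) (nhds (∑' j : ℕ, (Real.pi : ℂ) * (a j n * conj (a j m)))) := by
    refine tendsto_tsum_of_dominated_convergence (bound := fun j => Real.pi * ‖a j n * conj (a j m)‖)
      (hs.mul_left _) (fun j => ?_) ?_
    · have hc : Continuous (fun ρ : ℝ => (Real.pi : ℂ) * (a j n * conj (a j m) * (ρ : ℂ) ^ (j + j))) := by fun_prop
      have := (hc.tendsto 1).mono_left (nhdsWithin_le_nhds (s := Iio 1))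
      rw [Complex.ofReal_one, one_pow, mul_one] at this
      exact this
    · filter_upwards [ev_range] with ρ hρ j
      rw [norm_mul, norm_mul, norm_pow, Complex.norm_real, Complex.norm_real, Real.norm_of_nonneg Real.pi_pos.le,
        Real.norm_of_nonneg hρ.1]
      refine mul_le_mul_of_nonneg_left ?_ Real.pi_pos.le
      exact mul_le_of_le_one_right (norm_nonneg _) (pow_le_one₀ hρ.1 hρ.2.le)
  have h2 : Filter.Tendsto (fun ρ : ℝ => ∑' j : ℕ, (Real.pi : ℂ) * (a j n * conj (a j m) * (ρ : ℂ) ^ (j + j)))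
      (nhdsWithin 1 (Iio 1)) (nhds (J n m)) := by
    refine (In_tendsto n m).congr' ?_
    filter_upwards [ev_range] with ρ hρ
    exact (In_hasSum n m hnm ρ hρ.1 hρ.2).tsum_eq.symm
  have h3 := tendsto_nhds_unique h1 h2
  rw [tsum_mul_left, J_eq] at h3
  have hpc : (Real.pi : ℂ) ≠ 0 := by exact_mod_cast Real.pi_pos.ne'
  have h4 := mul_left_cancel₀ hpc h3
  rw [← h4]
  exact hs.of_norm.hasSum

end Pool.Agent.V1197.CW
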