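import Pool.Agent.V1197.CW.Alg

/-! Power series of powers of `Lg z = log (1+z) - log (1-z)` and of the kernel functions. -/

namespace Pool.Agent.V1197.CW
open Finset
open scoped ComplexConjugate

noncomputable def Lg (z : ℂ) : ℂ := Complex.log (1 + z) - Complex.log (1 - z)

theorem al_one_right (n : ℕ) : al n 1 = if n % 2 = 1 then 2 / (n : ℝ) else 0 := by
  rw [al, pow_one, ell, PowerSeries.coeff_mk]

theorem Lg_aux (n : ℕ) (z : ℂ) : (al n 1 : ℂ) * z ^ n = (-1) ^ (n + 1) * z ^ n / n + z ^ n / n := by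
  rw [al_one_right]
  rcases n with _ | n
  · simp
  · have hn : ((n : ℂ) + 1) ≠ 0 := by exact_mod_cast Nat.succ_ne_zero n
    rcases Nat.even_or_odd n with h | h
    · have h1 : (n + 1) % 2 = 1 := by have := Nat.even_iff.1 h; omega
      have h2 : Even (n + 1 + 1) := by rw [Nat.even_iff]; omega
      rw [if_pos h1, h2.neg_one_pow]
      push_cast
      ring
    · have h1 : ¬ (n + 1) % 2 = 1 := by have := Nat.odd_iff.1 h; omega
      have h2 : Odd (n + 1 + 1) := by rw [Nat.odd_iff]; omega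
      rw [if_neg h1, h2.neg_one_pow]
      push_cast
      ring

theorem Lg_hasSum (z : ℂ) (hz : ‖z‖ < 1) : HasSum (fun n : ℕ => (al n 1 : ℂ) * z ^ n) (Lg z) := by
  have h := (Complex.hasSum_taylorSeries_log hz).add (Complex.hasSum_taylorSeries_neg_log hz)
  rw [Lg, sub_eq_add_neg]
  have e : (fun n : ℕ => (al n 1 : ℂ) * z ^ n) = fun n : ℕ => (-1) ^ (n + 1) * z ^ n / n + z ^ n / n := by
    funext n
    exact Lg_aux n z
  rw [e]
  exact h

theorem al_one_summable (z : ℂ) (hz : ‖z‖ < 1) : Summable (fun n : ℕ => ‖(al n 1 : ℂ) * z ^ n‖) := by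
  refine Summable.of_nonneg_of_le (fun _ => norm_nonneg _) (fun n => ?_)
    ((summable_geometric_of_lt_one (norm_nonneg z) hz).mul_left 2)
  rw [norm_mul, norm_pow, Complex.norm_real]
  refine mul_le_mul_of_nonneg_right ?_ (by positivity)
  rw [al_one_right]
  split_ifs with h
  · rw [Real.norm_of_nonneg (by positivity)]
    have : (1 : ℝ) ≤ n := by
      have : 1 ≤ n := by omega
      exact_mod_cast this
    rw [div_le_iff₀ (by linarith)]
    linarith
  · simp

theorem Lg_pow (m : ℕ) (z : ℂ) (hz : ‖z‖ < 1) : Summable (fun n : ℕ => ‖(al n m : ℂ) * z ^ n‖) ∧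
    ∑' n : ℕ, (al n m : ℂ) * z ^ n = Lg z ^ m := by
  induction m with
  | zero =>
    have h0 : ∀ n ∉ ({0} : Finset ℕ), (al n 0 : ℂ) * z ^ n = 0 := by
      intro n hn
      rw [al_zero_right, if_neg (by simpa using hn)]
      simp
    constructor
    · refine summable_of_ne_finset_zero (s := {0}) fun n hn => ?_
      rw [h0 n hn, norm_zero]
    · rw [tsum_eq_sum h0]
      simp [al_zero_right]
  | succ m ih =>
    obtain ⟨h1, h2⟩ := ih
    have hs := al_one_summable z hz
    have e : ∀ n : ℕ, (al n (m + 1) : ℂ) * z ^ n =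
        ∑ kl ∈ antidiagonal n, ((al kl.1 m : ℂ) * z ^ kl.1) * ((al kl.2 1 : ℂ) * z ^ kl.2) := by
      intro n
      have : al n (m + 1) = ∑ kl ∈ antidiagonal n, al kl.1 m * al kl.2 1 := by
        simp only [al]
        rw [pow_succ, PowerSeries.coeff_mul, pow_one]
      rw [this]
      push_cast
      rw [Finset.sum_mul]
      refine Finset.sum_congr rfl fun kl hkl => ?_
      rw [HasAntidiagonal.mem_antidiagonal] at hkl
      rw [← hkl, pow_add]
      ring
    constructor
    · have := summable_norm_sum_mul_antidiagonal_of_summable_norm h1 hs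
      refine this.congr fun n => ?_
      rw [e]
    · rw [tsum_congr e, ← tsum_mul_tsum_eq_tsum_sum_antidiagonal_of_summable_norm h1 hs, h2,
        (Lg_hasSum z hz).tsum_eq, pow_succ]

/-- the constant `i / π` -/
noncomputable def cc : ℂ := Complex.I / (Real.pi : ℂ)

/-- coefficients of the kernel -/
noncomputable def a (j n : ℕ) : ℂ :=
  ∑ m ∈ range (n + 1), (al n m : ℂ) * (al j m : ℂ) * (cc ^ m / (m.factorial : ℂ))

theorem a_ext (j n N : ℕ) (h : n < N) :
    a j n = ∑ m ∈ range N, (al n m : ℂ) * (al j m : ℂ) * (cc ^ m / (m.factorial : ℂ)) := by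
  rw [a]
  refine Finset.sum_subset (by intro b; simp only [mem_range]; omega) ?_
  intro m _ hm
  rw [al_lt m n (by simpa using hm)]
  simp

theorem a_symm (j n : ℕ) : a j n = a n j := by
  rw [a_ext j n (j + n + 1) (by omega), a_ext n j (j + n + 1) (by omega)]
  exact Finset.sum_congr rfl fun m _ => by ring

theorem a_parity (j n : ℕ) (h : (j + n) % 2 = 1) : a j n = 0 := by
  rw [a]
  refine Finset.sum_eq_zero fun m _ => ?_
  rcases Nat.even_or_odd (n + m) with h1 | h1
  · rw [al_parity m j (by have := Nat.even_iff.1 h1; omega)]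
    simp
  · rw [al_parity m n (Nat.odd_iff.1 h1)]
    simp

theorem a_hasSum (n : ℕ) (z : ℂ) (hz : ‖z‖ < 1) : Summable (fun j : ℕ => ‖a j n * z ^ j‖) ∧
    HasSum (fun j : ℕ => a j n * z ^ j) (g n (cc * Lg z)) := by
  have h : ∀ m, HasSum (fun j : ℕ => (al j m : ℂ) * z ^ j) (Lg z ^ m) := by
    intro m
    obtain ⟨h1, h2⟩ := Lg_pow m z hz
    rw [← h2]
    exact h1.of_norm.hasSum
  have hH : HasSum (fun j : ℕ => a j n * z ^ j) (g n (cc * Lg z)) := by
    have := hasSum_sum (s := range (n + 1)) (f := fun m (j : ℕ) => ((al n m : ℂ) * (cc ^ m / (m.factorial : ℂ))) * ((al j m : ℂ) * z ^ j))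
      (a := fun m => ((al n m : ℂ) * (cc ^ m / (m.factorial : ℂ))) * (Lg z ^ m)) (fun m _ => (h m).mul_left _)
    have e1 : g n (cc * Lg z) = ∑ m ∈ range (n + 1), ((al n m : ℂ) * (cc ^ m / (m.factorial : ℂ))) * (Lg z ^ m) := by
      rw [g]
      refine Finset.sum_congr rfl fun m _ => ?_
      rw [mul_pow]
      ring
    rw [e1]
    have e2 : (fun j : ℕ => a j n * z ^ j) = fun j : ℕ => ∑ m ∈ range (n + 1), ((al n m : ℂ) * (cc ^ m / (m.factorial : ℂ))) * ((al j m : ℂ) * z ^ j) := by
      funext j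
      rw [a, Finset.sum_mul]
      exact Finset.sum_congr rfl fun m _ => by ring
    rw [e2]
    exact this
  refine ⟨?_, hH⟩
  have hs : Summable (fun j : ℕ => ∑ m ∈ range (n + 1), ‖((al n m : ℂ) * (cc ^ m / (m.factorial : ℂ)))‖ * ‖((al j m : ℂ) * z ^ j)‖) :=
    summable_sum fun m _ => (Lg_pow m z hz).1.mul_left _
  refine Summable.of_nonneg_of_le (fun _ => norm_nonneg _) (fun j => ?_) hs
  rw [a, Finset.sum_mul]
  refine (norm_sum_le _ _).trans (Finset.sum_le_sum fun m _ => ?_)
  rw [← norm_mul]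
  exact le_of_eq (by congr 1; ring)

end Pool.Agent.V1197.CW
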